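import Mathlib

/-!
The infinite Ramsey theorem for increasing tuples, and a canonisation lemma: after composing with
a strictly increasing map that fixes an initial segment, an `ι`-ary operation on `ℕ` has one of
finitely many kernels.
-/

namespace Pool.Agent.Lib.MP_0c3240_lc

open Filter

theorem ramsey (m : ℕ) : ∀ {κ : Type} [Finite κ] (c : (Fin m → ℕ) → κ),
    ∃ φ : ℕ → ℕ, StrictMono φ ∧ ∃ k, ∀ t : Fin m → ℕ, StrictMono t → c (φ ∘ t) = k := by
  induction m with
  | zero =>
    intro κ _ c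
    refine ⟨id, strictMono_id, c Fin.elim0, fun t _ => ?_⟩
    congr 1
    ext i
    exact i.elim0
  | succ m ih =>
    intro κ _ c
    have step : ∀ ψ : {ψ : ℕ → ℕ // StrictMono ψ}, ∃ ψ' : {ψ : ℕ → ℕ // StrictMono ψ},
        ∃ k : κ, ∃ θ : ℕ → ℕ, StrictMono θ ∧ (∀ i, 0 < θ i) ∧ ψ'.1 = ψ.1 ∘ θ ∧
          ∀ t : Fin m → ℕ, StrictMono t → c (Fin.cons (ψ.1 0) (ψ'.1 ∘ t)) = k := by
      intro ψ
      obtain ⟨φ, hφ, k, hk⟩ := ih (fun t : Fin m → ℕ =>
        c (Fin.cons (ψ.1 0) (fun i => ψ.1 (t i + 1))))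
      have hθ : StrictMono (fun i => φ i + 1) := fun a b h => Nat.succ_lt_succ (hφ h)
      refine ⟨⟨ψ.1 ∘ (fun i => φ i + 1), ψ.2.comp hθ⟩, k, fun i => φ i + 1, hθ,
        fun i => Nat.succ_pos _, rfl, ?_⟩
      intro t ht
      exact hk t ht
    choose next col θ hθ hθpos hθeq hcol using step
    let Ψ : ℕ → {ψ : ℕ → ℕ // StrictMono ψ} := fun n => next^[n] ⟨id, strictMono_id⟩
    have hΨ : ∀ n, Ψ (n+1) = next (Ψ n) := fun n => Function.iterate_succ_apply' next n _
    let a : ℕ → ℕ := fun n => (Ψ n).1 0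
    have ha : StrictMono a := by
      refine strictMono_nat_of_lt_succ fun n => ?_
      show (Ψ n).1 0 < (Ψ (n+1)).1 0
      rw [hΨ, hθeq]
      exact (Ψ n).2 (hθpos _ 0)
    have hrange : ∀ n j s, ∃ s', (Ψ (n + j)).1 s = (Ψ n).1 s' := by
      intro n j
      induction j with
      | zero => intro s; exact ⟨s, rfl⟩
      | succ j ihj =>
        intro s
        obtain ⟨s', hs'⟩ := ihj (θ (Ψ (n + j)) s)
        refine ⟨s', ?_⟩
        rw [← hs', ← add_assoc, hΨ, hθeq]
        rfl
    have hpre : ∀ n (t : Fin m → ℕ), StrictMono t → (∀ i, n < t i) →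
        c (Fin.cons (a n) (a ∘ t)) = col (Ψ n) := by
      intro n t ht hn
      have : ∀ i, ∃ s, a (t i) = (Ψ (n+1)).1 s := by
        intro i
        obtain ⟨j, hj⟩ := Nat.exists_eq_add_of_lt (hn i)
        obtain ⟨s', hs'⟩ := hrange (n+1) j 0
        refine ⟨s', ?_⟩
        rw [← hs']
        show (Ψ (t i)).1 0 = _
        have h3 : t i = n + 1 + j := by omega
        rw [h3]
      choose s hs using this
      have hsm : StrictMono s := by
        intro i j hij
        have h1 : a (t i) < a (t j) := ha (ht hij)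
        rw [hs, hs] at h1
        exact (Ψ (n+1)).2.lt_iff_lt.1 h1
      have h2 : a ∘ t = (next (Ψ n)).1 ∘ s := by
        ext i
        show a (t i) = _
        rw [hs, hΨ]
        rfl
      rw [h2]
      exact hcol (Ψ n) s hsm
    obtain ⟨k, hk⟩ := Finite.exists_infinite_fiber (fun n => col (Ψ n))
    have hfreq : ∃ᶠ n in atTop, col (Ψ n) = k := by
      rw [Nat.frequently_atTop_iff_infinite]
      exact Set.infinite_coe_iff.1 hk
    obtain ⟨e, he, hek⟩ := extraction_of_frequently_atTop hfreq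
    refine ⟨a ∘ e, ha.comp he, k, fun t ht => ?_⟩
    have h1 : (a ∘ e) ∘ t = Fin.cons (a (e (t 0))) (a ∘ (fun i : Fin m => e (t i.succ))) := by
      ext i
      refine Fin.cases ?_ (fun i => ?_) i
      · rfl
      · rfl
    rw [h1, hpre, hek]
    · exact fun i j hij => he (ht (Fin.succ_lt_succ_iff.2 hij))
    · exact fun i => he (ht (Fin.succ_pos i))

/-- evaluation of codes: `inl x` is `x < p`, `inr k` is `p + t k`. -/
def dec {m : ℕ} (p : ℕ) (t : Fin m → ℕ) : Fin p ⊕ Fin m → ℕ
  | Sum.inl x => x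
  | Sum.inr k => p + t k

/-- Canonisation. -/
theorem canon (ι : Type) [Finite ι] (p : ℕ) :
    ∃ (κ : Type) (_ : Finite κ) (K : ((ι → ℕ) → ℕ) → κ) (α : ((ι → ℕ) → ℕ) → (ℕ ↪ ℕ)),
      (∀ g x, x < p → α g x = x) ∧
      ∀ g h, K g = K h → ∀ x y : ι → ℕ,
        (g (fun i => α g (x i)) = g (fun i => α g (y i)) ↔
          h (fun i => α h (x i)) = h (fun i => α h (y i))) := by
  classical
  have := Fintype.ofFinite ι
  let m := Fintype.card (ι ⊕ ι)
  let κ := Set ((ι → Fin p ⊕ Fin m) × (ι → Fin p ⊕ Fin m))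
  have hκ : Finite κ := by infer_instance
  let col : ((ι → ℕ) → ℕ) → (Fin m → ℕ) → κ := fun g t =>
    {z | g (fun i => dec p t (z.1 i)) = g (fun i => dec p t (z.2 i))}
  have hR : ∀ g, ∃ φ : ℕ → ℕ, StrictMono φ ∧ ∃ k, ∀ t : Fin m → ℕ, StrictMono t →
      col g (φ ∘ t) = k := fun g => ramsey m (col g)
  choose φ hφ K hK using hR
  let αf : ((ι → ℕ) → ℕ) → ℕ → ℕ := fun g x => if x < p then x else p + φ g (x - p)
  have hα : ∀ g, Function.Injective (αf g) := by
    intro g x y hxy
    by_cases hx : x < p <;> by_cases hy : y < p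
    · simpa [αf, hx, hy] using hxy
    · simp only [αf, hx, hy, if_true, if_false] at hxy; omega
    · simp only [αf, hx, hy, if_true, if_false] at hxy; omega
    · simp only [αf, hx, hy, if_false] at hxy
      have := (hφ g).injective (Nat.add_left_cancel hxy)
      omega
  refine ⟨κ, hκ, K, fun g => ⟨αf g, hα g⟩, fun g x hx => ?_, ?_⟩
  · simp [αf, hx]
  · intro g h hgh x y
    -- find a strictly increasing tuple coding `x` and `y`
    let S : Finset ℕ := Finset.univ.image (fun i : ι ⊕ ι => Sum.elim x y i - p)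
    have hS : S.card ≤ m := Finset.card_image_le
    obtain ⟨T, hST, hT⟩ := Infinite.exists_superset_card_eq S m hS
    let t : Fin m → ℕ := fun i => T.orderEmbOfFin hT i
    have ht : StrictMono t := (T.orderEmbOfFin hT).strictMono
    have hcode : ∀ z : ℕ, (z < p ∨ z - p ∈ T) → ∃ w : Fin p ⊕ Fin m,
        ∀ g, αf g z = dec p (φ g ∘ t) w := by
      intro z hz
      by_cases hzp : z < p
      · refine ⟨Sum.inl ⟨z, hzp⟩, fun g => ?_⟩
        simp [αf, hzp, dec]
      · have hz' : z - p ∈ T := hz.resolve_left hzp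
        have : z - p ∈ Set.range (T.orderEmbOfFin hT) := by
          rw [Finset.range_orderEmbOfFin]
          exact hz'
        obtain ⟨k, hk⟩ := this
        refine ⟨Sum.inr k, fun g => ?_⟩
        simp [αf, hzp, dec, t, hk]
    have hx : ∀ i, ∃ w, ∀ g, αf g (x i) = dec p (φ g ∘ t) w := fun i =>
      hcode _ (Or.inr (hST (Finset.mem_image.2 ⟨Sum.inl i, Finset.mem_univ _, rfl⟩)))
    have hy : ∀ i, ∃ w, ∀ g, αf g (y i) = dec p (φ g ∘ t) w := fun i =>
      hcode _ (Or.inr (hST (Finset.mem_image.2 ⟨Sum.inr i, Finset.mem_univ _, rfl⟩)))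
    choose wx hwx using hx
    choose wy hwy using hy
    have key : ∀ g, (g (fun i => αf g (x i)) = g (fun i => αf g (y i))) ↔ (wx, wy) ∈ K g := by
      intro g
      rw [← hK g t ht]
      simp only [hwx, hwy]
      rfl
    show (g (fun i => αf g (x i)) = g (fun i => αf g (y i))) ↔
      (h (fun i => αf h (x i)) = h (fun i => αf h (y i)))
    rw [key g, key h, hgh]

end Pool.Agent.Lib.MP_0c3240_lc
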