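import Pool.Agent.Lib.MP_0c3240_lc.Support
import Pool.Agent.Lib.MP_0c3240_lc.Ramsey

/-!
The core continuity argument.  `F` is a set of `ι`-ary operations on `ℕ`, `X` assigns to each
member an `ι`-ary operation on `ℕ`, compatibly with the action of injections, and the graph of
`X` is closed.  Then `X` is continuous.
-/

namespace Pool.Agent.Lib.MP_0c3240_lc

open Equiv Filter

/-- Data for the core argument. -/
structure CoreData (ι : Type) where
  /-- the action of injections on the second copy of `ℕ` -/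
  E : EmbAct ℕ
  /-- the set of operations -/
  F : Set ((ι → ℕ) → ℕ)
  /-- the map -/
  X : F → (ι → ℕ) → ℕ
  hl : ∀ (u : ℕ ↪ ℕ) (f : F), ∃ h : (fun x => u (f.1 x)) ∈ F, ∀ a, X ⟨_, h⟩ a = E.A u (X f a)
  hr : ∀ (u : ℕ ↪ ℕ) (f : F), ∃ h : (fun x => f.1 (fun i => u (x i))) ∈ F,
    ∀ a, X ⟨_, h⟩ a = X f (fun i => E.A u (a i))
  hclosed : ∀ (f : F) (h : (ι → ℕ) → ℕ), (∀ (S T : Set (ι → ℕ)), S.Finite → T.Finite →
    ∃ g : F, (∀ x ∈ S, g.1 x = f.1 x) ∧ ∀ a ∈ T, X g a = h a) → X f = h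

namespace CoreData

variable {ι : Type} (C : CoreData ι)

theorem same_kernel (g1 g2 : C.F) (h : ∀ x y, g1.1 x = g1.1 y ↔ g2.1 x = g2.1 y) (a : ι → ℕ) :
    ∃ σ : Perm ℕ, C.X g2 a = C.E.A σ.toEmbedding (C.X g1 a) := by
  classical
  let δ : ℕ ↪ ℕ := ⟨fun x => 2 * x, fun x y hxy => by
    have : 2 * x = 2 * y := hxy
    omega⟩
  let γf : ℕ → ℕ := fun y => if hy : ∃ x, g1.1 x = y then 2 * g2.1 hy.choose else 2 * y + 1
  have hγf : ∀ x, γf (g1.1 x) = 2 * g2.1 x := by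
    intro x
    have hy : ∃ x', g1.1 x' = g1.1 x := ⟨x, rfl⟩
    have : γf (g1.1 x) = 2 * g2.1 hy.choose := dif_pos hy
    rw [this, (h _ _).1 hy.choose_spec]
  have hγn : ∀ y, (¬ ∃ x, g1.1 x = y) → γf y = 2 * y + 1 := fun y hy => dif_neg hy
  have hγinj : Function.Injective γf := by
    intro y y' hyy
    by_cases hy : ∃ x, g1.1 x = y <;> by_cases hy' : ∃ x, g1.1 x = y'
    · obtain ⟨x, rfl⟩ := hy
      obtain ⟨x', rfl⟩ := hy'
      rw [hγf, hγf] at hyy
      exact (h _ _).2 (by omega)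
    · obtain ⟨x, rfl⟩ := hy
      rw [hγf, hγn _ hy'] at hyy
      omega
    · obtain ⟨x', rfl⟩ := hy'
      rw [hγf, hγn _ hy] at hyy
      omega
    · rw [hγn _ hy, hγn _ hy'] at hyy
      omega
  let γ : ℕ ↪ ℕ := ⟨γf, hγinj⟩
  obtain ⟨m1, h1⟩ := C.hl γ g1
  obtain ⟨m2, h2⟩ := C.hl δ g2
  have heq : (⟨_, m1⟩ : C.F) = ⟨_, m2⟩ := Subtype.ext (funext fun x => hγf x)
  have h3 : C.E.A γ (C.X g1 a) = C.E.A δ (C.X g2 a) := by
    rw [← h1 a, ← h2 a, heq]
  obtain ⟨σ, hσ⟩ := EmbAct.exists_perm_agree γ (C.E.supp (C.X g1 a))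
  obtain ⟨τ, hτ⟩ := EmbAct.exists_perm_agree δ (C.E.supp (C.X g2 a))
  have h4 : C.E.A γ (C.X g1 a) = C.E.A σ.toEmbedding (C.X g1 a) :=
    C.E.supp_supports _ _ _ fun x hx => (hσ x hx).symm
  have h5 : C.E.A δ (C.X g2 a) = C.E.A τ.toEmbedding (C.X g2 a) :=
    C.E.supp_supports _ _ _ fun x hx => (hτ x hx).symm
  refine ⟨τ⁻¹ * σ, ?_⟩
  rw [C.E.perm_mul, ← h4, h3, h5, C.E.perm_inv_cancel]

theorem finite_orbits [Finite ι] (a : ι → ℕ) :
    ∃ B : Set ℕ, B.Finite ∧ ∀ g : C.F, ∃ b ∈ B, ∃ σ : Perm ℕ, C.X g a = C.E.A σ.toEmbedding b := by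
  classical
  obtain ⟨p, hp⟩ : ∃ p, ∀ i, ∀ x ∈ C.E.supp (a i), x < p := by
    have hfin : (⋃ i, ((C.E.supp (a i) : Finset ℕ) : Set ℕ)).Finite :=
      Set.finite_iUnion fun i => Finset.finite_toSet _
    obtain ⟨q, hq⟩ := hfin.bddAbove
    refine ⟨q + 1, fun i x hx => Nat.lt_succ_of_le (hq ?_)⟩
    exact Set.mem_iUnion.2 ⟨i, by exact_mod_cast hx⟩
  obtain ⟨κ, hκ, K, α, hα, hK⟩ := canon ι p
  let b : κ → ℕ := fun k => if h : ∃ g : C.F, K g.1 = k then C.X h.choose a else 0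
  refine ⟨Set.range b, Set.finite_range b, fun g => ⟨b (K g.1), ⟨_, rfl⟩, ?_⟩⟩
  have hex : ∃ g' : C.F, K g'.1 = K g.1 := ⟨g, rfl⟩
  have hb : b (K g.1) = C.X hex.choose a := dif_pos hex
  rw [hb]
  have hspec := hex.choose_spec
  generalize hex.choose = g' at hspec
  -- canonised versions
  have hcan : ∀ g : C.F, ∃ m : (fun x => g.1 (fun i => α g.1 (x i))) ∈ C.F,
      C.X ⟨_, m⟩ a = C.X g a := by
    intro g
    obtain ⟨m, hm⟩ := C.hr (α g.1) g
    refine ⟨m, ?_⟩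
    rw [hm a]
    congr 1
    ext i
    have := C.E.supp_supports (a i) (α g.1) (Function.Embedding.refl ℕ) (fun x hx => by
      rw [hα g.1 x (hp i x hx)]
      rfl)
    rw [this, C.E.one]
  obtain ⟨m, hm⟩ := hcan g
  obtain ⟨m', hm'⟩ := hcan g'
  obtain ⟨σ, hσ⟩ := C.same_kernel ⟨_, m'⟩ ⟨_, m⟩ (fun x y => hK g'.1 g.1 hspec x y) a
  exact ⟨σ, by rw [← hm, ← hm', hσ]⟩

theorem core [Finite ι] (U : Ultrafilter C.F) (f : C.F)
    (hU : ∀ x, ∀ᶠ g in (U : Filter C.F), g.1 x = f.1 x) (a : ι → ℕ) :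
    ∀ᶠ g in (U : Filter C.F), C.X g a = C.X f a := by
  classical
  have hb : ∀ a : ι → ℕ, ∃ b : ℕ, ∃ γ : C.F → Perm ℕ,
      ∀ᶠ g in (U : Filter C.F), C.X g a = C.E.A (γ g).toEmbedding b := by
    intro a
    obtain ⟨B, hB, hBg⟩ := C.finite_orbits a
    choose b hbB σ hσ using hBg
    have hun : (⋃ i ∈ B, {g : C.F | b g = i}) ∈ U := by
      refine Filter.mem_of_superset Filter.univ_mem ?_
      intro g _
      exact Set.mem_biUnion (hbB g) rfl
    obtain ⟨b0, _, hb0⟩ := (Ultrafilter.finite_biUnion_mem_iff hB).1 hun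
    refine ⟨b0, σ, ?_⟩
    filter_upwards [hb0] with g hg
    rw [hσ g]
    congr 1
  choose b γ hγ using hb
  let ev : ℕ ⊕ ((ι → ℕ) × ℕ) → C.F → ℕ := fun s g =>
    Sum.elim (fun x => x) (fun z => γ z.1 g z.2) s
  let r : Setoid (ℕ ⊕ ((ι → ℕ) × ℕ)) :=
    { r := fun s s' => ∀ᶠ g in (U : Filter C.F), ev s g = ev s' g
      iseqv :=
        { refl := fun s => Filter.Eventually.of_forall fun g => rfl
          symm := fun {s s'} h => by filter_upwards [h] with g hg using hg.symm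
          trans := fun {s s' s''} h h' => by
            filter_upwards [h, h'] with g hg hg' using hg.trans hg' } }
  obtain ⟨e, he⟩ := exists_injective_nat (Quotient r)
  let lam : ℕ ⊕ ((ι → ℕ) × ℕ) → ℕ := fun s => e (Quotient.mk r s)
  have hlam : ∀ s s', lam s = lam s' ↔ ∀ᶠ g in (U : Filter C.F), ev s g = ev s' g := by
    intro s s'
    constructor
    · intro h
      exact Quotient.exact (he h)
    · intro h
      exact congrArg e (Quotient.sound h)
  let δ : ℕ ↪ ℕ := ⟨fun x => lam (Sum.inl x), fun x y hxy => by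
    obtain ⟨g, hg⟩ := ((hlam _ _).1 hxy).exists
    exact hg⟩
  let s : (ι → ℕ) → (ℕ ↪ ℕ) := fun a => ⟨fun y => lam (Sum.inr (a, y)), fun x y hxy => by
    obtain ⟨g, hg⟩ := ((hlam _ _).1 hxy).exists
    exact (γ a g).injective hg⟩
  let h : (ι → ℕ) → ℕ := fun a => C.E.A (s a) (b a)
  obtain ⟨mδ, hmδ⟩ := C.hl δ f
  have hXh : C.X ⟨_, mδ⟩ = h := by
    apply C.hclosed
    intro S T hS hT
    let W : Set (ℕ ⊕ ((ι → ℕ) × ℕ)) := (Sum.inl '' (f.1 '' S)) ∪
      ⋃ a ∈ T, (fun y => Sum.inr (a, y)) '' ((C.E.supp (b a) : Finset ℕ) : Set ℕ)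
    have hW : W.Finite := by
      refine ((hS.image _).image _).union ?_
      exact hT.biUnion fun a _ => (Finset.finite_toSet _).image _
    have ev1 : ∀ᶠ g in (U : Filter C.F), ∀ t ∈ W, ∀ t' ∈ W,
        (ev t g = ev t' g ↔ lam t = lam t') := by
      rw [Filter.eventually_all_finite hW]
      intro t _
      rw [Filter.eventually_all_finite hW]
      intro t' _
      by_cases hl : lam t = lam t'
      · filter_upwards [(hlam _ _).1 hl] with g hg
        simp [hg, hl]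
      · have : ∀ᶠ g in (U : Filter C.F), ¬ ev t g = ev t' g := by
          rw [Ultrafilter.eventually_not]
          exact fun hh => hl ((hlam _ _).2 hh)
        filter_upwards [this] with g hg
        simp [hg, hl]
    have ev2 : ∀ᶠ g in (U : Filter C.F), ∀ x ∈ S, g.1 x = f.1 x := by
      rw [Filter.eventually_all_finite hS]
      exact fun x _ => hU x
    have ev3 : ∀ᶠ g in (U : Filter C.F), ∀ a ∈ T, C.X g a = C.E.A (γ a g).toEmbedding (b a) := by
      rw [Filter.eventually_all_finite hT]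
      exact fun a _ => hγ a
    obtain ⟨g, hg1, hg2, hg3⟩ := (ev1.and (ev2.and ev3)).exists
    obtain ⟨ρ, hρ⟩ := exists_perm_match hW (fun t => ev t g) lam hg1
    obtain ⟨mg, hmg⟩ := C.hl ρ.toEmbedding g
    refine ⟨⟨_, mg⟩, fun x hx => ?_, fun a ha => ?_⟩
    · show ρ (g.1 x) = lam (Sum.inl (f.1 x))
      rw [hg2 x hx]
      exact hρ (Sum.inl (f.1 x)) (Or.inl ⟨_, ⟨x, hx, rfl⟩, rfl⟩)
    · rw [hmg, hg3 a ha, ← C.E.mul]
      refine C.E.supp_supports (b a) _ _ fun y hy => ?_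
      show ρ (γ a g y) = lam (Sum.inr (a, y))
      refine hρ (Sum.inr (a, y)) (Or.inr ?_)
      exact Set.mem_biUnion ha ⟨y, by exact_mod_cast hy, rfl⟩
  -- now compare supports
  have hcomp : C.E.A (s a) (b a) = C.E.A δ (C.X f a) := by
    rw [← hmδ a, hXh]
  have hsupp : (C.E.supp (b a)).map (s a) = (C.E.supp (C.X f a)).map δ := by
    rw [← C.E.supp_map, ← C.E.supp_map, hcomp]
  have hz : ∀ y ∈ C.E.supp (b a), ∀ᶠ g in (U : Filter C.F), δ (γ a g y) = s a y := by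
    intro y hy
    have : s a y ∈ (C.E.supp (C.X f a)).map δ := by
      rw [← hsupp]
      exact Finset.mem_map_of_mem _ hy
    obtain ⟨z, _, hz⟩ := Finset.mem_map.1 this
    have h1 : lam (Sum.inl z) = lam (Sum.inr (a, y)) := hz
    filter_upwards [(hlam _ _).1 h1] with g hg
    have h2 : z = γ a g y := hg
    rw [← h2]
    exact hz
  have hz' : ∀ᶠ g in (U : Filter C.F), ∀ y ∈ ((C.E.supp (b a) : Finset ℕ) : Set ℕ),
      δ (γ a g y) = s a y := by
    rw [Filter.eventually_all_finite (Finset.finite_toSet _)]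
    exact fun y hy => hz y (by exact_mod_cast hy)
  filter_upwards [hz', hγ a] with g hg hg'
  apply C.E.injective δ
  rw [hg', ← C.E.mul, ← hcomp]
  exact C.E.supp_supports (b a) _ _ fun y hy => hg y (by exact_mod_cast hy)

end CoreData

end Pool.Agent.Lib.MP_0c3240_lc
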