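import Mathlib

/-!
Clones on `ℕ`, clone isomorphisms, automatic homeomorphicity, polymorphism clones.
-/

universe u v

namespace Pool.Agent.Lib.MP_0c3240_lc

/-- `Op n` is the set of all operations of arity `n + 1` on `ℕ`, that is, of all functions
`ℕ ^ (n + 1) → ℕ`.  Its topology is Mathlib's product topology (a product of copies of the
discrete space `ℕ`), i.e. the topology of pointwise convergence. -/
abbrev Op (n : ℕ) : Type := (Fin (n + 1) → ℕ) → ℕ

/-- The set `𝒪` of all finitary operations on `ℕ` of arity at least one: `⟨n, f⟩` is an operation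
`f` of arity `n + 1`.  Its topology is Mathlib's sum topology. -/
abbrev AllOps : Type := Σ n : ℕ, Op n

/-- A clone on `ℕ`: a set of finitary operations that contains all projections and is closed
under composition. -/
structure Clone where
  /-- the operations of the clone -/
  ops : Set AllOps
  proj_mem : ∀ (n : ℕ) (i : Fin (n + 1)), (⟨n, fun x => x i⟩ : AllOps) ∈ ops
  comp_mem : ∀ (n m : ℕ) (f : Op n) (g : Fin (n + 1) → Op m), (⟨n, f⟩ : AllOps) ∈ ops →
    (∀ i, (⟨m, g i⟩ : AllOps) ∈ ops) → (⟨m, fun x => f (fun i => g i x)⟩ : AllOps) ∈ ops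

namespace Clone

/-- The set of members of arity `n + 1` of a clone. -/
def level (C : Clone) (n : ℕ) : Set (Op n) := {f | (⟨n, f⟩ : AllOps) ∈ C.ops}

/-- The `i`-th projection of arity `n + 1`, as a member of `C`. -/
def proj (C : Clone) (n : ℕ) (i : Fin (n + 1)) : C.level n := ⟨fun x => x i, C.proj_mem n i⟩

/-- The composition `f(g_0, …, g_n)`, as a member of `C`. -/
def comp (C : Clone) {n m : ℕ} (f : C.level n) (g : Fin (n + 1) → C.level m) : C.level m :=
  ⟨fun x => f.1 (fun i => (g i).1 x), C.comp_mem n m f.1 (fun i => (g i).1) f.2 (fun i => (g i).2)⟩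

end Clone

/-- A clone isomorphism: a family of bijections between the members of each arity that preserves
projections and composition.  No continuity is assumed. -/
structure CloneIso (C D : Clone) where
  /-- the map on operations of arity `n + 1` -/
  map : ∀ n : ℕ, C.level n → D.level n
  bijective : ∀ n, Function.Bijective (map n)
  map_proj : ∀ (n : ℕ) (i : Fin (n + 1)), map n (C.proj n i) = D.proj n i
  map_comp : ∀ (n m : ℕ) (f : C.level n) (g : Fin (n + 1) → C.level m),
    map m (C.comp f g) = D.comp (map n f) (fun i => map m (g i))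

/-- A clone isomorphism as a map between the subspaces `C.ops` and `D.ops` of `𝒪`. -/
def CloneIso.toFun {C D : Clone} (ξ : CloneIso C D) : C.ops → D.ops := fun p =>
  ⟨⟨p.1.1, (ξ.map p.1.1 ⟨p.1.2, p.2⟩).1⟩, (ξ.map p.1.1 ⟨p.1.2, p.2⟩).2⟩

/-- `C` is a closed clone and every clone isomorphism from `C` onto a closed clone `D` on `ℕ` is a
homeomorphism (for the topology of pointwise convergence on both sides). -/
def AutomaticHomeomorphicity (C : Clone) : Prop :=
  IsClosed C.ops ∧ ∀ D : Clone, IsClosed D.ops → ∀ ξ : CloneIso C D, IsHomeomorph ξ.toFun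

/-- The polymorphism clone of a structure with domain `ℕ`: all finitary operations that preserve
every relation of the structure. -/
def Pol (L : FirstOrder.Language.{u, v}) [L.Structure ℕ] : Clone where
  ops := {p | ∀ (k : ℕ) (R : L.Relations k) (t : Fin (p.1 + 1) → Fin k → ℕ),
    (∀ i, FirstOrder.Language.Structure.RelMap R (t i)) →
      FirstOrder.Language.Structure.RelMap R (fun j => p.2 (fun i => t i j))}
  proj_mem := fun _ i _ _ _ ht => ht i
  comp_mem := fun _ _ _ g hf hg k R t ht =>
    hf k R (fun i j => g i (fun l => t l j)) (fun i => hg i k R t ht)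

/-- Every relation of the structure is first-order definable without parameters in `(ℕ, =)`,
i.e. by a formula of the language without non-logical symbols. -/
def DefinableInEquality (L : FirstOrder.Language.{u, v}) [L.Structure ℕ] : Prop :=
  letI : FirstOrder.Language.empty.Structure ℕ := FirstOrder.Language.emptyStructure
  ∀ (k : ℕ) (R : L.Relations k), (∅ : Set ℕ).Definable FirstOrder.Language.empty
    {x : Fin k → ℕ | FirstOrder.Language.Structure.RelMap R x}

end Pool.Agent.Lib.MP_0c3240_lc
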