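import Pool.Agent.Lib.MP_0c3240_lc.Main

/-!
Assembly: every clone isomorphism from a closed clone containing all permutations onto a closed
clone is a homeomorphism; polymorphism clones of structures definable in `(ℕ, =)`.
-/

universe u v

namespace Pool.Agent.Lib.MP_0c3240_lc

open Equiv Filter Topology

namespace CloneIso

variable {C D : Clone} (ξ : CloneIso C D)

section

variable (hperm : ∀ σ : Perm ℕ, un σ ∈ C.level 0) (hC : IsClosed C.ops) (hD : IsClosed D.ops)

/-- the action of all injections -/
def embAct : EmbAct ℕ where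
  A := fun w a => ξ.act ⟨un w, Clone.emb_mem hC hperm w⟩ a
  one := fun a => ξ.act_id _ a
  mul := fun w w' a => ξ.act_comp (Clone.emb_mem hC hperm w') (Clone.emb_mem hC hperm w) a
  fin := fun a => by
    classical
    obtain ⟨F, hF, hFs⟩ := ξ.exists_psupp hperm a
    refine ⟨hF.toFinset, fun w w' h => ?_⟩
    obtain ⟨σ, hσ⟩ := ext_perm_finite (f := w) hF w.injective.injOn
    rw [ξ.act_emb hperm hC hD w a F hF hFs σ hσ]
    exact (ξ.act_emb hperm hC hD w' a F hF hFs σ
      (fun x hx => by rw [hσ x hx, h x (hF.mem_toFinset.2 hx)])).symm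

theorem embAct_perm (σ : Perm ℕ) (a : ℕ) :
    (ξ.embAct hperm hC hD).A σ.toEmbedding a = ξ.act ⟨un σ, hperm σ⟩ a := rfl

/-- translation of a tuple of members -/
theorem val_multi {n m : ℕ} (f : C.level n) (g : Fin (n + 1) → C.level m)
    (h : C.level m) (hh : h.1 = fun x => f.1 (fun i => (g i).1 x)) (a : Fin (m + 1) → ℕ) :
    ξ.val h a = ξ.val f (fun i => ξ.val (g i) a) := by
  have : h = C.comp f g := Subtype.ext hh
  rw [this, ξ.val_comp]

include hC hperm hD in
/-- Continuity of the inverse. -/
theorem inv_cont {n : ℕ} (f : C.level n) (x : Fin (n + 1) → ℕ) :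
    ∃ T : Set (Fin (n + 1) → ℕ), T.Finite ∧
      ∀ g : C.level n, (∀ a ∈ T, ξ.val g a = ξ.val f a) → g.1 x = f.1 x := by
  classical
  by_cases hall : ∀ w : ℕ → ℕ, un w ∈ C.level 0 → Function.Injective w
  · -- all unary members are injective
    let E := ξ.embAct hperm hC hD
    -- a point with `0` in its support
    obtain ⟨a0, ha0⟩ : ∃ a, 0 ∈ E.supp a := by
      by_contra hcon
      push Not at hcon
      have hempty : ∀ a, E.supp a = ∅ := by
        intro a
        by_contra hne
        obtain ⟨y, hy⟩ := Finset.nonempty_iff_ne_empty.2 hne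
        refine hcon (E.A (Equiv.swap y 0).toEmbedding a) ?_
        rw [E.supp_map]
        refine Finset.mem_map.2 ⟨y, hy, ?_⟩
        exact Equiv.swap_apply_left y 0
      have h1 : (⟨un (Equiv.swap 0 1 : Perm ℕ), hperm _⟩ : C.level 0) = ⟨un (1 : Perm ℕ), hperm _⟩ := by
        apply ξ.eq_of_act_eq
        intro a
        have := E.supp_supports a (Equiv.swap 0 1 : Perm ℕ).toEmbedding (1 : Perm ℕ).toEmbedding
          (by rw [hempty a]; simp)
        exact this
      have h2 := congrFun (congrArg Subtype.val h1) (fun _ => 0)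
      have h3 : (Equiv.swap 0 1 : Perm ℕ) 0 = (1 : Perm ℕ) 0 := h2
      simp at h3
    -- a permutation fixing `0` and moving the rest of the support away
    obtain ⟨τ, hτ0, hτ⟩ : ∃ τ : Perm ℕ, τ 0 = 0 ∧ ∀ y ∈ E.supp a0, y ≠ 0 → τ y ∉ E.supp a0 := by
      obtain ⟨M, hM⟩ : ∃ M, ∀ y ∈ E.supp a0, y < M := by
        obtain ⟨q, hq⟩ := (E.supp a0).finite_toSet.bddAbove
        exact ⟨q + 1, fun y hy => Nat.lt_succ_of_le (hq (by exact_mod_cast hy))⟩
      obtain ⟨τ, hτ⟩ := ext_perm_finite (P := ((E.supp a0 : Finset ℕ) : Set ℕ))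
        (f := fun y => if y = 0 then 0 else y + M) (Finset.finite_toSet _) (by
          intro y _ y' _ h
          by_cases hy : y = 0 <;> by_cases hy' : y' = 0 <;> simp [hy, hy'] at h <;> omega)
      refine ⟨τ, ?_, fun y hy hy0 hmem => ?_⟩
      · rw [hτ 0 (by exact_mod_cast ha0)]; simp
      · rw [hτ y (by exact_mod_cast hy)] at hmem
        simp only [hy0, if_false] at hmem
        have := hM _ hmem
        omega
    let a1 := E.A τ.toEmbedding a0
    have ha1 : E.supp a1 = (E.supp a0).map τ.toEmbedding := E.supp_map _ _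
    -- permutations moving `0` to the coordinates of `x`
    let s : Fin (n + 1) → Perm ℕ := fun i => Equiv.swap 0 (x i)
    have hs : ∀ i, s i 0 = x i := fun i => Equiv.swap_apply_left 0 (x i)
    let us : Fin (n + 1) → C.level 0 := fun i => ⟨un (s i), hperm (s i)⟩
    refine ⟨{(fun i => ξ.act (us i) a0), (fun i => ξ.act (us i) a1)}, Set.toFinite _,
      fun g hg => ?_⟩
    -- the unary operations
    have hmem : ∀ g : C.level n, un (fun y => g.1 (fun i => s i y)) ∈ C.level 0 := fun g =>
      Clone.rcomp_mem g (fun i => un (s i)) (fun i => hperm (s i))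
    let ug : ∀ g : C.level n, ℕ ↪ ℕ := fun g => ⟨fun y => g.1 (fun i => s i y), hall _ (hmem g)⟩
    have hval : ∀ (g : C.level n) (a : ℕ), E.A (ug g) a = ξ.val g (fun i => ξ.act (us i) a) := by
      intro g a
      exact ξ.val_multi g us ⟨un (ug g), hmem g⟩ rfl (fun _ => a)
    have e0 : E.A (ug g) a0 = E.A (ug f) a0 := by
      rw [hval, hval]; exact hg _ (Set.mem_insert _ _)
    have e1 : E.A (ug g) a1 = E.A (ug f) a1 := by
      rw [hval, hval]; exact hg _ (Set.mem_insert_of_mem _ rfl)
    have f0 : (E.supp a0).map (ug g) = (E.supp a0).map (ug f) := by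
      rw [← E.supp_map, ← E.supp_map, e0]
    have f1 : (E.supp a1).map (ug g) = (E.supp a1).map (ug f) := by
      rw [← E.supp_map, ← E.supp_map, e1]
    have m0 : ug g 0 ∈ (E.supp a0).map (ug f) := by
      rw [← f0]; exact Finset.mem_map_of_mem _ ha0
    have hz1 : (0 : ℕ) ∈ E.supp a1 := by
      rw [ha1]
      exact Finset.mem_map.2 ⟨0, ha0, hτ0⟩
    have m1 : ug g 0 ∈ (E.supp a1).map (ug f) := by
      rw [← f1]; exact Finset.mem_map_of_mem _ hz1
    obtain ⟨y, hy, hyg⟩ := Finset.mem_map.1 m0
    obtain ⟨z, hz, hzg⟩ := Finset.mem_map.1 m1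
    have hyz : y = z := (ug f).injective (hyg.trans hzg.symm)
    subst hyz
    rw [ha1] at hz
    obtain ⟨t, ht, hty⟩ := Finset.mem_map.1 hz
    have ht0 : t = 0 := by
      by_contra hne
      exact hτ t ht hne (by rw [show τ t = y from hty]; exact hy)
    subst ht0
    have hy0 : y = 0 := by rw [← hty]; exact hτ0
    subst hy0
    have h7 : g.1 (fun i => s i 0) = f.1 (fun i => s i 0) := hyg.symm
    simpa only [hs] using h7
  · -- there are constants
    push Not at hall
    obtain ⟨w, hw, hni⟩ := hall
    have hcm : ∀ c, un (fun _ => c) ∈ C.level 0 := Clone.const_mem hC hperm hw hni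
    let z : ℕ → ℕ := fun c => ξ.act ⟨un (fun _ => c), hcm c⟩ 0
    have hzconst : ∀ c a, ξ.act ⟨un (fun _ => c), hcm c⟩ a = z c := by
      intro c a
      have h2 : C.comp (⟨un (fun _ => c), hcm c⟩ : C.level 0) (fun _ => C.proj 1 0) =
          C.comp (⟨un (fun _ => c), hcm c⟩ : C.level 0) (fun _ => C.proj 1 1) :=
        Subtype.ext rfl
      have h4 := ξ.val_comp (⟨un (fun _ => c), hcm c⟩ : C.level 0) (fun _ => C.proj 1 0) ![0, a]
      have h5 := ξ.val_comp (⟨un (fun _ => c), hcm c⟩ : C.level 0) (fun _ => C.proj 1 1) ![0, a]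
      rw [h2, h5] at h4
      simp only [ξ.val_proj] at h4
      exact h4
    have hzinj : Function.Injective z := by
      intro c c' h
      have h1 : (⟨un (fun _ => c), hcm c⟩ : C.level 0) = ⟨un (fun _ => c'), hcm c'⟩ := by
        apply ξ.eq_of_act_eq
        intro a
        rw [hzconst, hzconst, h]
      exact congrFun (congrArg Subtype.val h1) (fun _ => 0)
    have hzval : ∀ g : C.level n, ξ.val g (fun i => z (x i)) = z (g.1 x) := by
      intro g
      have := ξ.val_multi g (fun i => ⟨un (fun _ => x i), hcm (x i)⟩)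
        ⟨un (fun _ => g.1 x), hcm (g.1 x)⟩ rfl (fun _ => 0)
      exact this.symm
    refine ⟨{fun i => z (x i)}, Set.finite_singleton _, fun g hg => ?_⟩
    have := hg _ (Set.mem_singleton _)
    rw [hzval, hzval] at this
    exact hzinj this

/-- the data for the core argument -/
def coreData (n : ℕ) : CoreData (Fin (n + 1)) where
  E := ξ.embAct hperm hC hD
  F := C.level n
  X := fun f a => ξ.val f a
  hl := fun w f => ⟨Clone.lcomp_mem (Clone.emb_mem hC hperm w) f, fun a => ξ.val_lcomp _ f a⟩
  hr := fun w f => ξ.val_rcomp (Clone.emb_mem hC hperm w) f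
  hclosed := by
    intro f h happ
    have hmem : h ∈ D.level n := by
      apply Clone.mem_level_of_approx hD
      intro S hS
      obtain ⟨g, _, hg⟩ := happ ∅ S Set.finite_empty hS
      exact ⟨(ξ.map n g).1, (ξ.map n g).2, hg⟩
    obtain ⟨f', hf'⟩ := (ξ.bijective n).2 ⟨h, hmem⟩
    have hval : ∀ a, ξ.val f' a = h a := by
      intro a
      unfold val
      rw [hf']
    have : f = f' := by
      apply Subtype.ext
      funext x
      obtain ⟨T, hT, hTg⟩ := ξ.inv_cont hperm hC hD f' x
      obtain ⟨g, hg1, hg2⟩ := happ {x} T (Set.finite_singleton x) hT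
      have h1 := hTg g (fun a ha => by rw [hval]; exact hg2 a ha)
      rw [← hg1 x rfl, h1]
    subst this
    funext a
    exact hval a

include hC hperm hD in
theorem continuous_map (n : ℕ) : Continuous (ξ.map n) := by
  rw [continuous_iff_ultrafilter]
  intro f U hU
  rw [tendsto_subtype_rng, tendsto_pi_nhds]
  intro a
  rw [nhds_discrete, tendsto_pure]
  refine (ξ.coreData hperm hC hD n).core U f (fun x => ?_) a
  have h1 : Tendsto (fun g : C.level n => g.1 x) (𝓝 f) (𝓝 (f.1 x)) :=
    ((continuous_apply x).comp continuous_subtype_val).tendsto f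
  rw [nhds_discrete ℕ, tendsto_pure] at h1
  exact hU h1

include hC hperm hD in
theorem isOpenMap_map (n : ℕ) : IsOpenMap (ξ.map n) := by
  have hcont : Continuous (Equiv.ofBijective _ (ξ.bijective n)).symm := by
    rw [continuous_induced_rng, continuous_pi_iff]
    intro x
    rw [continuous_iff_continuousAt]
    intro h
    obtain ⟨f, rfl⟩ := (ξ.bijective n).2 h
    show Tendsto _ _ _
    rw [nhds_discrete ℕ, tendsto_pure]
    obtain ⟨T, hT, hTg⟩ := ξ.inv_cont hperm hC hD f x
    have hev : ∀ᶠ h' in 𝓝 (ξ.map n f), ∀ a ∈ T, h'.1 a = (ξ.map n f).1 a := by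
      rw [Filter.eventually_all_finite hT]
      intro a _
      have h1 : Tendsto (fun g : D.level n => g.1 a) (𝓝 (ξ.map n f))
          (𝓝 ((ξ.map n f).1 a)) :=
        ((continuous_apply a).comp continuous_subtype_val).tendsto (ξ.map n f)
      rw [nhds_discrete ℕ, tendsto_pure] at h1
      exact h1
    filter_upwards [hev] with h' hh'
    obtain ⟨g, rfl⟩ := (ξ.bijective n).2 h'
    have e1 : (Equiv.ofBijective _ (ξ.bijective n)).symm (ξ.map n g) = g :=
      Equiv.ofBijective_symm_apply_apply _ _ g
    have e2 : (Equiv.ofBijective _ (ξ.bijective n)).symm (ξ.map n f) = f :=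
      Equiv.ofBijective_symm_apply_apply _ _ f
    show ((Equiv.ofBijective _ (ξ.bijective n)).symm (ξ.map n g)).1 x =
      ((Equiv.ofBijective _ (ξ.bijective n)).symm (ξ.map n f)).1 x
    rw [e1, e2]
    exact hTg g hh'
  intro S hS
  have h1 : ξ.map n '' S = (Equiv.ofBijective _ (ξ.bijective n)).symm ⁻¹' S :=
    Equiv.image_eq_preimage_symm (Equiv.ofBijective _ (ξ.bijective n)) S
  rw [h1]
  exact hS.preimage hcont

end

end CloneIso

/-- The subspace `C.ops` of `𝒪` is the sum of its levels. -/
def Clone.homeo (C : Clone) : (Σ n : ℕ, C.level n) ≃ₜ C.ops where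
  toFun := fun p => ⟨⟨p.1, p.2.1⟩, p.2.2⟩
  invFun := fun p => ⟨p.1.1, ⟨p.1.2, p.2⟩⟩
  left_inv := fun _ => rfl
  right_inv := fun _ => rfl
  continuous_toFun := by
    rw [continuous_induced_rng]
    rw [continuous_sigma_iff]
    intro n
    exact continuous_sigmaMk.comp continuous_subtype_val
  continuous_invFun := by
    rw [continuous_iff_continuousAt]
    rintro ⟨⟨n, f⟩, hf⟩
    have hemb : IsOpenEmbedding (Sigma.mk n : Op n → AllOps) := IsOpenEmbedding.sigmaMk
    -- near `⟨n, f⟩` all members have arity `n + 1`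
    have hop : IsOpen {p : C.ops | p.1.1 = n} := by
      have h1 : IsOpen {p : AllOps | p.1 = n} := by
        have : {p : AllOps | p.1 = n} = Set.range (Sigma.mk n : Op n → AllOps) := by
          ext ⟨m, g⟩
          constructor
          · rintro h
            have h' : m = n := h
            subst h'
            exact ⟨g, rfl⟩
          · rintro ⟨g', hg'⟩
            exact (congrArg Sigma.fst hg').symm
        rw [this]
        exact hemb.isOpen_range
      exact h1.preimage continuous_subtype_val
    -- factor through the level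
    let j : C.level n → C.ops := fun g => ⟨⟨n, g.1⟩, g.2⟩
    have hj : IsOpenEmbedding j := by
      have hi : IsEmbedding (fun g : C.level n => (⟨n, g.1⟩ : AllOps)) :=
        hemb.isEmbedding.comp IsEmbedding.subtypeVal
      have hj1 : IsEmbedding j := by
        refine IsEmbedding.of_comp ?_ continuous_subtype_val hi
        rw [continuous_induced_rng]
        exact continuous_sigmaMk.comp continuous_subtype_val
      refine ⟨hj1, ?_⟩
      have : Set.range j = {p : C.ops | p.1.1 = n} := by
        ext ⟨⟨m, g⟩, hg⟩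
        constructor
        · rintro ⟨g', hg'⟩
          exact (congrArg (fun p : C.ops => p.1.1) hg').symm
        · rintro h
          have h' : m = n := h
          subst h'
          exact ⟨⟨g, hg⟩, rfl⟩
      rw [this]
      exact hop
    refine (hj.continuousAt_iff (g := fun p : C.ops =>
      (⟨p.1.1, ⟨p.1.2, p.2⟩⟩ : Σ n : ℕ, C.level n)) (x := ⟨f, hf⟩)).1 ?_
    exact (continuous_sigmaMk (σ := fun n => C.level n) (i := n)).continuousAt

/-- **Main theorem.** Every closed clone on `ℕ` containing all permutations has automatic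
homeomorphicity with respect to the closed clones on `ℕ`. -/
theorem automaticHomeomorphicity_of_perm (C : Clone) (hC : IsClosed C.ops)
    (hperm : ∀ σ : Perm ℕ, un σ ∈ C.level 0) : AutomaticHomeomorphicity C := by
  refine ⟨hC, fun D hD ξ => ?_⟩
  have h1 : ξ.toFun = D.homeo ∘ (Sigma.map id ξ.map) ∘ C.homeo.symm := by
    funext p
    rfl
  rw [h1]
  refine D.homeo.isHomeomorph.comp (IsHomeomorph.comp ?_ C.homeo.symm.isHomeomorph)
  refine ⟨?_, ?_, ?_⟩
  · exact Continuous.sigma_map (fun n => ξ.continuous_map hperm hC hD n)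
  · exact isOpenMap_sigma_map.2 (fun n => ξ.isOpenMap_map hperm hC hD n)
  · refine ⟨?_, ?_⟩
    · exact Function.Injective.sigma_map Function.injective_id (fun n => (ξ.bijective n).1)
    · exact Function.Surjective.sigma_map Function.surjective_id (fun n => (ξ.bijective n).2)

theorem isClosed_Pol (L : FirstOrder.Language.{u, v}) [L.Structure ℕ] : IsClosed (Pol L).ops := by
  rw [isClosed_sigma_iff]
  intro n
  have : Sigma.mk n ⁻¹' (Pol L).ops = ⋂ (k : ℕ) (R : L.Relations k) (t : Fin (n + 1) → Fin k → ℕ)
      (_ : ∀ i, FirstOrder.Language.Structure.RelMap R (t i)),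
      {f : Op n | FirstOrder.Language.Structure.RelMap R (fun j => f (fun i => t i j))} := by
    ext f
    simp only [Set.mem_iInter]
    rfl
  rw [this]
  refine isClosed_iInter fun k => isClosed_iInter fun R => isClosed_iInter fun t =>
    isClosed_iInter fun _ => ?_
  have hcont : Continuous (fun (f : Op n) (j : Fin k) => f (fun i => t i j)) :=
    continuous_pi fun j => continuous_apply _
  exact (isClosed_discrete {y : Fin k → ℕ | FirstOrder.Language.Structure.RelMap R y}).preimage
    hcont

theorem perm_mem_Pol (L : FirstOrder.Language.{u, v}) [L.Structure ℕ]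
    (h : DefinableInEquality L) (σ : Perm ℕ) : un σ ∈ (Pol L).level 0 := by
  let _ : FirstOrder.Language.empty.Structure ℕ := FirstOrder.Language.emptyStructure
  intro k R t ht
  obtain ⟨φ, hφ⟩ := Set.empty_definable_iff.1 (h k R)
  have hmem : ∀ x : Fin k → ℕ, FirstOrder.Language.Structure.RelMap R x ↔ φ.Realize x := by
    intro x
    exact Set.ext_iff.1 hφ x
  rw [hmem]
  have h0 := (hmem _).1 (ht 0)
  exact (FirstOrder.Language.StrongHomClass.realize_formula σ φ (v := t 0)).2 h0

end Pool.Agent.Lib.MP_0c3240_lc
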