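import Pool.Agent.Lib.MP_0c3240_lc.PermExt

/-!
Every subgroup of countable index of the symmetric group of a countable infinite set contains the
pointwise stabiliser of a finite set (Dixon, Neumann, Thomas; Semmes). The countability of the
index is expressed by a map `c` to `ℕ` whose fibres lie in single left cosets.
-/

namespace Pool.Agent.Lib.MP_0c3240_lc

open Equiv

theorem stepA {S : Type*} (H : Subgroup (Perm (S × ℕ))) (c : Perm (S × ℕ) → ℕ)
    (hc : ∀ σ τ, c σ = c τ → σ⁻¹ * τ ∈ H) :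
    ∃ i : ℕ, ∀ τ : Perm S, ∃ g ∈ H, ∀ x, g (x, i) = (τ x, i) := by
  classical
  have h1 : ∃ i : ℕ, ∀ τ : Perm S, ∃ σ, c σ = i ∧ ∀ x, σ (x, i) = (τ x, i) := by
    by_contra hcon
    push Not at hcon
    choose τ hτ using hcon
    let σ : Perm (S × ℕ) :=
      { toFun := fun p => (τ p.2 p.1, p.2)
        invFun := fun p => ((τ p.2).symm p.1, p.2)
        left_inv := fun p => by simp
        right_inv := fun p => by simp }
    obtain ⟨x, hx⟩ := hτ (c σ) σ rfl
    exact hx rfl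
  obtain ⟨i, hi⟩ := h1
  refine ⟨i, fun τ => ?_⟩
  obtain ⟨σ0, h0, h0'⟩ := hi 1
  obtain ⟨σ, h, h'⟩ := hi τ
  refine ⟨σ0⁻¹ * σ, hc _ _ (h0.trans h.symm), fun x => ?_⟩
  rw [Perm.mul_apply, h', Perm.inv_eq_iff_eq]
  simpa using (h0' (τ x)).symm

open Classical in
/-- `blk i b X` acts as `b` on the columns `B × {q} × {i}` with `q ∈ X`. -/
noncomputable def blk {B : Type*} (i : ℕ) (b : Perm B) (X : Set ℚ) : Perm ((B × ℚ) × ℕ) where
  toFun := fun p => if p.2 = i ∧ p.1.2 ∈ X then ((b p.1.1, p.1.2), p.2) else p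
  invFun := fun p => if p.2 = i ∧ p.1.2 ∈ X then ((b.symm p.1.1, p.1.2), p.2) else p
  left_inv := fun p => by
    obtain ⟨⟨y, q⟩, j⟩ := p
    by_cases h : j = i ∧ q ∈ X
    · simp [h]
    · simp [h]
  right_inv := fun p => by
    obtain ⟨⟨y, q⟩, j⟩ := p
    by_cases h : j = i ∧ q ∈ X
    · simp [h]
    · simp [h]

theorem blk_pos {B : Type*} {i : ℕ} (b : Perm B) {X : Set ℚ} {y : B} {q : ℚ}
    (hq : q ∈ X) : blk i b X ((y, q), i) = ((b y, q), i) := by
  simp [blk, hq]

theorem blk_neg {B : Type*} {i : ℕ} (b : Perm B) {X : Set ℚ} {p : (B × ℚ) × ℕ}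
    (hp : ¬ (p.2 = i ∧ p.1.2 ∈ X)) : blk i b X p = p := by
  simp only [blk, Equiv.coe_fn_mk, if_neg hp]

theorem blk_mul {B : Type*} {i : ℕ} (b : Perm B) {X Y : Set ℚ} (h : Disjoint X Y) :
    blk i b X * blk i b Y = blk i b (X ∪ Y) := by
  ext1 p
  obtain ⟨⟨y, q⟩, j⟩ := p
  rw [Perm.mul_apply]
  by_cases hj : j = i
  · subst hj
    by_cases hY : q ∈ Y
    · have hX : q ∉ X := fun hX => Set.disjoint_left.1 h hX hY
      rw [blk_pos b hY, blk_neg (X := X) b (by simpa using hX), blk_pos b (Or.inr hY)]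
    · rw [blk_neg (X := Y) b (by simpa using hY)]
      by_cases hX : q ∈ X
      · rw [blk_pos b hX, blk_pos b (Or.inl hX)]
      · rw [blk_neg (X := X) b (by simpa using hX), blk_neg (X := X ∪ Y) b (by simp [hX, hY])]
  · rw [blk_neg (X := Y) b (by simp [hj]), blk_neg (X := X) b (by simp [hj]),
      blk_neg (X := X ∪ Y) b (by simp [hj])]

theorem exists_perm_image {Ω : Type*} [Countable Ω] {P X : Set Ω} (hP : P.Infinite)
    (hP' : Pᶜ.Infinite) (hX : X.Infinite) (hX' : Xᶜ.Infinite) :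
    ∃ τ : Perm Ω, ∀ x, τ x ∈ X ↔ x ∈ P := by
  classical
  have : Infinite {x // x ∈ P} := hP.to_subtype
  have : Infinite {x // x ∈ X} := hX.to_subtype
  have : Infinite {x // ¬ x ∈ P} := hP'.to_subtype
  have : Infinite {x // ¬ x ∈ X} := hX'.to_subtype
  obtain ⟨e1⟩ : Nonempty ({x // x ∈ P} ≃ {x // x ∈ X}) := nonempty_equiv_of_countable
  obtain ⟨e2⟩ : Nonempty ({x // ¬ x ∈ P} ≃ {x // ¬ x ∈ X}) := nonempty_equiv_of_countable
  refine ⟨Equiv.subtypeCongr e1 e2, fun x => ?_⟩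
  by_cases hx : x ∈ P
  · have : Equiv.subtypeCongr e1 e2 x = e1 ⟨x, hx⟩ := by
      simp [Equiv.subtypeCongr, Equiv.sumCompl_symm_apply_of_pos hx]
    rw [this]
    simp [hx]
  · have : Equiv.subtypeCongr e1 e2 x = e2 ⟨x, hx⟩ := by
      simp [Equiv.subtypeCongr, Equiv.sumCompl_symm_apply_of_neg hx]
    rw [this]
    simp only [hx, iff_false]
    exact (e2 ⟨x, hx⟩).2

theorem stepB {B : Type*} (H : Subgroup (Perm ((B × ℚ) × ℕ))) (c : Perm ((B × ℚ) × ℕ) → ℕ)
    (hc : ∀ σ τ, c σ = c τ → σ⁻¹ * τ ∈ H) :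
    ∃ i : ℕ, ∀ b : Perm B, blk i b {0} ∈ H := by
  classical
  obtain ⟨i, hi⟩ := stepA H c hc
  refine ⟨i, fun b => ?_⟩
  -- conjugation
  have hconj : ∀ (P X : Set ℚ) (τ : Perm ℚ), (∀ x, τ x ∈ X ↔ x ∈ P) →
      blk i b P ∈ H → blk i b X ∈ H := by
    intro P X τ hτ hPH
    obtain ⟨h, hH, hh⟩ := hi (Equiv.prodCongr (Equiv.refl B) τ)
    have hh' : ∀ y q, h ((y, q), i) = ((y, τ q), i) := fun y q => hh (y, q)
    have heq : h * blk i b P = blk i b X * h := by
      ext1 p
      obtain ⟨⟨y, q⟩, j⟩ := p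
      rw [Perm.mul_apply, Perm.mul_apply]
      by_cases hj : j = i
      · subst hj
        by_cases hq : q ∈ P
        · rw [blk_pos b hq, hh', hh', blk_pos b ((hτ q).2 hq)]
        · rw [blk_neg b (by simpa using hq), hh', blk_neg b]
          simpa [hτ q] using hq
      · rw [blk_neg b (by simp [hj]), blk_neg b]
        rintro ⟨h2, -⟩
        -- `h` maps the `i`-th layer onto itself
        have : h ((y, q), j) = h (((h ((y, q), j)).1.1, τ.symm (h ((y, q), j)).1.2), i) := by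
          rw [hh']
          ext1
          · simp
          · exact h2
        have := h.injective this
        exact hj (by simpa using congrArg Prod.snd this)
    have : blk i b X = h * blk i b P * h⁻¹ := by rw [heq]; group
    rw [this]
    exact H.mul_mem (H.mul_mem hH hPH) (H.inv_mem hH)
  -- two cuts with the same colour
  obtain ⟨r, s, hrs, hcol⟩ : ∃ r s : ℝ, r < s ∧
      c (blk i b {q : ℚ | (q : ℝ) < r}) = c (blk i b {q : ℚ | (q : ℝ) < s}) := by
    by_contra hcon
    push Not at hcon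
    have hinj : Function.Injective (fun r : ℝ => c (blk i b {q : ℚ | (q : ℝ) < r})) := by
      intro r s heq
      rcases lt_trichotomy r s with h | h | h
      · exact absurd heq (hcon r s h)
      · exact h
      · exact absurd heq.symm (hcon s r h)
    have := hinj.countable
    exact not_countable (α := ℝ) this
  let P : Set ℚ := {q : ℚ | r ≤ q ∧ (q : ℝ) < s}
  have hPH : blk i b P ∈ H := by
    have hdisj : Disjoint {q : ℚ | (q : ℝ) < r} P := by
      rw [Set.disjoint_left]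
      intro q hq hqP
      exact absurd hq (not_lt.2 hqP.1)
    have hun : {q : ℚ | (q : ℝ) < r} ∪ P = {q : ℚ | (q : ℝ) < s} := by
      ext q
      simp only [P, Set.mem_union, Set.mem_ofPred_eq]
      constructor
      · rintro (h | h)
        · exact h.trans hrs
        · exact h.2
      · intro h
        by_cases hq : (q : ℝ) < r
        · exact Or.inl hq
        · exact Or.inr ⟨not_lt.1 hq, h⟩
    have := hc _ _ hcol
    rw [← hun, ← blk_mul b hdisj] at this
    simpa using this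
  have hPi : P.Infinite := by
    obtain ⟨q1, h1, h1'⟩ := exists_rat_btwn hrs
    obtain ⟨q2, h2, h2'⟩ := exists_rat_btwn h1'
    have hlt : q1 < q2 := by exact_mod_cast h2
    refine (Set.Ioo_infinite hlt).mono ?_
    intro q hq
    have ha : (q1 : ℝ) < q := by exact_mod_cast hq.1
    have hb : (q : ℝ) < q2 := by exact_mod_cast hq.2
    exact ⟨(h1.trans ha).le, hb.trans h2'⟩
  have hPc : Pᶜ.Infinite := by
    obtain ⟨q1, h1⟩ := exists_rat_gt s
    refine (Set.Ioi_infinite q1).mono ?_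
    intro q hq hqP
    have ha : (q1 : ℝ) < q := by exact_mod_cast hq
    exact absurd hqP.2 (not_lt.2 (h1.trans ha).le)
  have hall : ∀ X : Set ℚ, X.Infinite → Xᶜ.Infinite → blk i b X ∈ H := by
    intro X hX hX'
    obtain ⟨τ, hτ⟩ := exists_perm_image hPi hPc hX hX'
    exact hconj P X τ hτ hPH
  have h1 : blk i b (Set.Ioi (0:ℚ)) ∈ H := by
    refine hall _ (Set.Ioi_infinite 0) ?_
    rw [Set.compl_Ioi]
    exact Set.Iic_infinite 0
  have h2 : blk i b (Set.Ici (0:ℚ)) ∈ H := by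
    refine hall _ (Set.Ici_infinite 0) ?_
    rw [Set.compl_Ici]
    exact Set.Iio_infinite 0
  have hun : ({0} : Set ℚ) ∪ Set.Ioi 0 = Set.Ici 0 := by
    ext q
    simp [le_iff_eq_or_lt, eq_comm]
  rw [← hun, ← blk_mul b (by simp)] at h2
  have := H.mul_mem h2 (H.inv_mem h1)
  simpa using this

/-- There is an infinite set `Pᶜ` such that all permutations supported in it belong to `H`. -/
theorem stepC (H : Subgroup (Perm ((ℕ × ℚ) × ℕ))) (c : Perm ((ℕ × ℚ) × ℕ) → ℕ)
    (hc : ∀ σ τ, c σ = c τ → σ⁻¹ * τ ∈ H) :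
    ∃ P : Set ((ℕ × ℚ) × ℕ), Pᶜ.Infinite ∧ Sup H P := by
  classical
  obtain ⟨i, hi⟩ := stepB H c hc
  refine ⟨{p | ¬ (p.2 = i ∧ p.1.2 = 0)}, ?_, ?_⟩
  · have : Function.Injective (fun n : ℕ => (((n, (0:ℚ)), i) : (ℕ × ℚ) × ℕ)) := by
      intro a b h
      simpa using h
    refine (Set.infinite_range_of_injective this).mono ?_
    rintro _ ⟨n, rfl⟩
    simp
  · intro g hg
    have hmem : ∀ (g : Perm ((ℕ × ℚ) × ℕ)),
        (∀ x ∈ {p : (ℕ × ℚ) × ℕ | ¬ (p.2 = i ∧ p.1.2 = 0)}, g x = x) →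
        ∀ y, g ((y, 0), i) = (((g ((y, 0), i)).1.1, 0), i) := by
      intro g hg y
      by_contra hne
      have h1 : g ((y, 0), i) ∈ {p : (ℕ × ℚ) × ℕ | ¬ (p.2 = i ∧ p.1.2 = 0)} := by
        intro h
        apply hne
        ext1
        · ext1
          · rfl
          · exact h.2
        · exact h.1
      have h2 := hg _ h1
      have h3 := g.injective h2
      rw [h3] at h1
      simp at h1
    have hg' : ∀ x ∈ {p : (ℕ × ℚ) × ℕ | ¬ (p.2 = i ∧ p.1.2 = 0)}, g⁻¹ x = x := by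
      intro x hx
      rw [Perm.inv_eq_iff_eq, hg x hx]
    let b : Perm ℕ :=
      { toFun := fun y => (g ((y, 0), i)).1.1
        invFun := fun y => (g⁻¹ ((y, 0), i)).1.1
        left_inv := fun y => by
          show (g⁻¹ (((g ((y, 0), i)).1.1, 0), i)).1.1 = y
          rw [← hmem g hg y]
          simp
        right_inv := fun y => by
          show (g (((g⁻¹ ((y, 0), i)).1.1, 0), i)).1.1 = y
          rw [← hmem g⁻¹ hg' y]
          simp }
    have : g = blk i b {0} := by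
      ext1 p
      by_cases hp : p.2 = i ∧ p.1.2 ∈ ({0} : Set ℚ)
      · obtain ⟨⟨y, q⟩, j⟩ := p
        obtain ⟨hj, hq⟩ := hp
        simp only [Set.mem_singleton_iff] at hj hq
        subst hj
        subst hq
        rw [blk_pos b (Set.mem_singleton _), hmem g hg y]
        rfl
      · rw [blk_neg b hp, hg p hp]
    rw [this]
    exact hi b

/-- an uncountable almost disjoint family in an infinite set -/
theorem exists_almost_disjoint (Ω : Type*) [Infinite Ω] :
    ∃ B : Set ℕ → Set Ω, (∀ X, (B X).Infinite) ∧ (∀ X Y, X ≠ Y → (B X ∩ B Y).Finite) ∧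
      ∀ X Y, (B X ∪ B Y)ᶜ.Infinite := by
  classical
  let f : Set ℕ → ℕ → List Bool := fun X n => List.ofFn (fun i : Fin n => decide ((i : ℕ) ∈ X))
  have hf : ∀ X Y n m, f X n = f Y m → n = m ∧ ∀ i < n, (i ∈ X ↔ i ∈ Y) := by
    intro X Y n m h
    have hlen : n = m := by
      have := congrArg List.length h
      simpa [f] using this
    subst hlen
    refine ⟨rfl, fun i hi => ?_⟩
    have h2 := List.ofFn_injective h
    have h3 := congrFun h2 ⟨i, hi⟩
    simpa using h3
  let ν := Infinite.natEmbedding Ω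
  let g : Set ℕ → ℕ → Ω := fun X n => ν (2 * Encodable.encode (f X n))
  have hg : ∀ X Y n m, g X n = g Y m → n = m ∧ ∀ i < n, (i ∈ X ↔ i ∈ Y) := by
    intro X Y n m h
    apply hf
    have h1 := ν.injective h
    have h2 : Encodable.encode (f X n) = Encodable.encode (f Y m) := by omega
    exact Encodable.encode_injective h2
  refine ⟨fun X => Set.range (g X), ?_, ?_, ?_⟩
  · intro X
    exact Set.infinite_range_of_injective (fun n m h => (hg X X n m h).1)
  · intro X Y hXY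
    obtain ⟨k, hk⟩ : ∃ k, ¬ (k ∈ X ↔ k ∈ Y) := by
      by_contra hcon
      push Not at hcon
      exact hXY (Set.ext hcon)
    refine ((Set.finite_Iic k).image (g X)).subset ?_
    rintro _ ⟨⟨n, rfl⟩, ⟨m, hm⟩⟩
    refine ⟨n, ?_, rfl⟩
    by_contra hn
    exact hk ((hg X Y n m hm.symm).2 k (not_le.1 hn))
  · intro X Y
    have : Function.Injective (fun n : ℕ => ν (2 * n + 1)) := by
      intro a b h
      have := ν.injective h
      omega
    refine (Set.infinite_range_of_injective this).mono ?_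
    rintro _ ⟨n, rfl⟩ (⟨m, hm⟩ | ⟨m, hm⟩)
    · have := ν.injective hm
      omega
    · have := ν.injective hm
      omega

theorem stepD {Ω : Type*} [Countable Ω] [Infinite Ω] (H : Subgroup (Perm Ω)) (c : Perm Ω → ℕ)
    (hc : ∀ σ τ, c σ = c τ → σ⁻¹ * τ ∈ H) (P : Set Ω) (hPc : Pᶜ.Infinite) (hP : Sup H P) :
    ∃ F : Set Ω, F.Finite ∧ Sup H F := by
  classical
  obtain ⟨B, hB1, hB2, hB3⟩ := exists_almost_disjoint Ω
  have hex : ∀ X : Set ℕ, ∃ g : Perm Ω, ∀ x ∈ P, g x ∈ B X := by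
    intro X
    obtain ⟨j, hj, hjB⟩ := exists_inj_into (hB1 X)
    have h2 : (j '' P)ᶜ.Infinite := by
      refine (hB3 X X).mono ?_
      rintro y hy ⟨x, _, rfl⟩
      exact hy (Or.inl (hjB x))
    obtain ⟨g, hg⟩ := ext_perm (f := j) (fun x _ y _ h => hj h) hPc h2
    exact ⟨g, fun x hx => by rw [hg x hx]; exact hjB x⟩
  choose g hg using hex
  obtain ⟨X, Y, hXY, hcol⟩ : ∃ X Y : Set ℕ, X ≠ Y ∧ c (g X) = c (g Y) := by
    by_contra hcon
    push Not at hcon
    exact Function.cantor_injective (fun X => c (g X)) (fun X Y h => by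
      by_contra hne
      exact hcon X Y hne h)
  have hh := hc _ _ hcol
  -- the conjugate of `H`
  let K : Subgroup (Perm Ω) := H.comap (MulAut.conj (g X)⁻¹).toMonoidHom
  have hK : ∀ σ, σ ∈ K ↔ (g X)⁻¹ * σ * g X ∈ H := by
    intro σ
    simp [K, Subgroup.mem_comap]
  have hKX : Sup K (B X) := by
    intro σ hσ
    rw [hK]
    refine hP _ fun x hx => ?_
    rw [Perm.mul_apply, Perm.mul_apply, Perm.inv_eq_iff_eq, hσ _ (hg X x hx)]
  have hKY : Sup K (B Y) := by
    intro σ hσ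
    rw [hK]
    have h1 : (g Y)⁻¹ * σ * g Y ∈ H := by
      refine hP _ fun x hx => ?_
      rw [Perm.mul_apply, Perm.mul_apply, Perm.inv_eq_iff_eq, hσ _ (hg Y x hx)]
    have h2 : (g X)⁻¹ * σ * g X = ((g X)⁻¹ * g Y) * ((g Y)⁻¹ * σ * g Y) * ((g X)⁻¹ * g Y)⁻¹ := by
      group
    rw [h2]
    exact H.mul_mem (H.mul_mem hh h1) (H.inv_mem hh)
  have hKF := sup_inter hKX hKY (hB3 X Y)
  refine ⟨(⇑((g X)⁻¹ : Perm Ω)) '' (B X ∩ B Y), (hB2 X Y hXY).image _, ?_⟩
  intro σ hσ
  have h3 : g X * σ * (g X)⁻¹ ∈ K := by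
    refine hKF _ fun x hx => ?_
    rw [Perm.mul_apply, Perm.mul_apply, hσ _ ⟨x, hx, rfl⟩]
    simp
  rw [hK] at h3
  simpa [mul_assoc] using h3

/-- **Small index property** of `Sym(ℕ)` for countable index. -/
theorem small_index (H : Subgroup (Perm ℕ)) (c : Perm ℕ → ℕ)
    (hc : ∀ σ τ, c σ = c τ → σ⁻¹ * τ ∈ H) :
    ∃ F : Set ℕ, F.Finite ∧ Sup H F := by
  classical
  obtain ⟨e⟩ : Nonempty (((ℕ × ℚ) × ℕ) ≃ ℕ) := nonempty_equiv_of_countable
  let φ : Perm ((ℕ × ℚ) × ℕ) →* Perm ℕ :=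
    { toFun := fun σ => e.permCongr σ
      map_one' := by ext x; simp
      map_mul' := fun σ τ => by ext x; simp [Perm.mul_apply] }
  have hφ : ∀ σ x, φ σ (e x) = e (σ x) := by
    intro σ x
    show e.permCongr σ (e x) = _
    simp
  obtain ⟨P, hP, hPs⟩ := stepC (H.comap φ) (fun σ => c (φ σ)) (fun σ τ h => by
    have := hc _ _ h
    rw [Subgroup.mem_comap, map_mul, map_inv]
    exact this)
  refine stepD H c hc (e '' P) ?_ ?_
  · have : (e '' P)ᶜ = e '' Pᶜ := (Set.image_compl_eq e.bijective).symm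
    rw [this]
    exact hP.image e.injective.injOn
  · intro σ hσ
    have h1 : e.symm.permCongr σ ∈ H.comap φ := by
      apply hPs
      intro x hx
      have := hσ (e x) ⟨x, hx, rfl⟩
      simp [Equiv.permCongr_apply, this]
    rw [Subgroup.mem_comap] at h1
    have h2 : φ (e.symm.permCongr σ) = σ := by
      ext1 x
      obtain ⟨y, rfl⟩ := e.surjective x
      rw [hφ]
      simp [Equiv.permCongr_apply]
    rwa [h2] at h1

end Pool.Agent.Lib.MP_0c3240_lc
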