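import Pool.Agent.Lib.MP_0c3240_lc.Defs
import Pool.Agent.Lib.MP_0c3240_lc.SmallIndex
import Pool.Agent.Lib.MP_0c3240_lc.Core

/-!
Automatic homeomorphicity of all closed clones on `ℕ` that contain all permutations.
-/

universe u v

namespace Pool.Agent.Lib.MP_0c3240_lc

open Equiv Filter Topology

/-- the unary operation given by `w` -/
def un (w : ℕ → ℕ) : Op 0 := fun x => w (x 0)

theorem fin_one_eq (i : Fin (0 + 1)) : i = 0 := by
  apply Fin.ext
  have := i.2
  show (i : ℕ) = 0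
  omega

namespace Clone

variable {C : Clone}

theorem isClosed_level (hC : IsClosed C.ops) (n : ℕ) : IsClosed (C.level n) :=
  hC.preimage continuous_sigmaMk

theorem mem_level_of_approx (hC : IsClosed C.ops) {n : ℕ} (f : Op n)
    (h : ∀ S : Set (Fin (n + 1) → ℕ), S.Finite → ∃ g ∈ C.level n, ∀ x ∈ S, g x = f x) :
    f ∈ C.level n := by
  by_contra hf
  have hop : IsOpen (C.level n)ᶜ := (isClosed_level hC n).isOpen_compl
  obtain ⟨I, w, hw, hsub⟩ := isOpen_pi_iff.1 hop f hf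
  obtain ⟨g, hg, hgf⟩ := h (I : Set (Fin (n + 1) → ℕ)) I.finite_toSet
  refine hsub (fun x hx => ?_) hg
  rw [hgf x hx]
  exact (hw x (by exact_mod_cast hx)).2

theorem lcomp_mem {n : ℕ} {w : ℕ → ℕ} (hw : un w ∈ C.level 0) (f : C.level n) :
    (fun x => w (f.1 x)) ∈ C.level n :=
  C.comp_mem 0 n (un w) (fun _ => f.1) hw (fun _ => f.2)

theorem rcomp_mem {n m : ℕ} (f : C.level n) (g : Fin (n + 1) → Op m)
    (hg : ∀ i, g i ∈ C.level m) : (fun x => f.1 (fun i => g i x)) ∈ C.level m :=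
  C.comp_mem n m f.1 g f.2 hg

theorem un_comp_mem {w w' : ℕ → ℕ} (hw : un w ∈ C.level 0) (hw' : un w' ∈ C.level 0) :
    un (fun x => w (w' x)) ∈ C.level 0 :=
  lcomp_mem hw ⟨un w', hw'⟩

theorem emb_mem (hC : IsClosed C.ops) (hperm : ∀ σ : Perm ℕ, un σ ∈ C.level 0) (w : ℕ ↪ ℕ) :
    un w ∈ C.level 0 := by
  apply mem_level_of_approx hC
  intro S hS
  obtain ⟨σ, hσ⟩ := ext_perm_finite (hS.image (fun x => x 0)) w.injective.injOn
  exact ⟨un σ, hperm σ, fun x hx => hσ _ ⟨x, hx, rfl⟩⟩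

/-- a non-injective unary member yields all constants -/
theorem const_mem (hC : IsClosed C.ops) (hperm : ∀ σ : Perm ℕ, un σ ∈ C.level 0) {w : ℕ → ℕ}
    (hw : un w ∈ C.level 0) (hni : ¬ Function.Injective w) (c : ℕ) :
    un (fun _ => c) ∈ C.level 0 := by
  classical
  obtain ⟨x, y, hxy, hne⟩ : ∃ x y, w x = w y ∧ x ≠ y := by
    by_contra hcon
    push Not at hcon
    exact hni hcon
  have key : ∀ S : Set ℕ, S.Finite → ∃ t : ℕ → ℕ, un t ∈ C.level 0 ∧
      ∀ a ∈ S, ∀ b ∈ S, t a = t b := by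
    intro S hS
    induction S, hS using Set.Finite.induction_on with
    | empty => exact ⟨id, hperm 1, fun a ha => ha.elim⟩
    | @insert s S _ _ ih =>
      obtain ⟨t, ht, htS⟩ := ih
      by_cases hex : ∃ a ∈ S, t a ≠ t s
      · obtain ⟨a, ha, has⟩ := hex
        obtain ⟨ρ, hρ⟩ := exists_perm_match (Ω := ℕ) (S := Bool) (T := Set.univ) Set.finite_univ
          (fun b => if b then t a else t s) (fun b => if b then x else y) (by
            intro b _ b' _
            cases b <;> cases b' <;> simp [has, hne, Ne.symm has, Ne.symm hne])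
        have h1 : ρ (t a) = x := by simpa using hρ true (Set.mem_univ _)
        have h2 : ρ (t s) = y := by simpa using hρ false (Set.mem_univ _)
        refine ⟨fun z => w (ρ (t z)), un_comp_mem hw (un_comp_mem (hperm ρ) ht), ?_⟩
        have h3 : ∀ z ∈ insert s S, w (ρ (t z)) = w x := by
          intro z hz
          rcases hz with rfl | hz
          · rw [h2, hxy]
          · rw [htS z hz a ha, h1]
        intro z hz z' hz'
        show w (ρ (t z)) = w (ρ (t z'))
        rw [h3 z hz, h3 z' hz']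
      · push Not at hex
        refine ⟨t, ht, ?_⟩
        have h3 : ∀ z ∈ insert s S, t z = t s := by
          intro z hz
          rcases hz with rfl | hz
          · rfl
          · exact hex z hz
        intro z hz z' hz'
        rw [h3 z hz, h3 z' hz']
  apply mem_level_of_approx hC
  intro S hS
  obtain ⟨t, ht, htS⟩ := key _ (hS.image (fun x => x 0))
  by_cases hne' : S.Nonempty
  · obtain ⟨z, hz⟩ := hne'
    refine ⟨un (fun a => Equiv.swap (t (z 0)) c (t a)), un_comp_mem (hperm _) ht, ?_⟩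
    intro z' hz'
    show Equiv.swap (t (z 0)) c (t (z' 0)) = c
    rw [htS (z' 0) ⟨z', hz', rfl⟩ (z 0) ⟨z, hz, rfl⟩]
    exact Equiv.swap_apply_left _ _
  · rw [Set.not_nonempty_iff_eq_empty] at hne'
    subst hne'
    exact ⟨un t, ht, fun x hx => hx.elim⟩

end Clone

namespace CloneIso

variable {C D : Clone} (ξ : CloneIso C D)

/-- value of the image of `f` at `a` -/
def val {n : ℕ} (f : C.level n) (a : Fin (n + 1) → ℕ) : ℕ := (ξ.map n f).1 a

theorem val_comp {n m : ℕ} (f : C.level n) (g : Fin (n + 1) → C.level m) (a : Fin (m + 1) → ℕ) :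
    ξ.val (C.comp f g) a = ξ.val f (fun i => ξ.val (g i) a) := by
  unfold val
  rw [ξ.map_comp]
  rfl

theorem val_proj {n : ℕ} (i : Fin (n + 1)) (a : Fin (n + 1) → ℕ) :
    ξ.val (C.proj n i) a = a i := by
  unfold val
  rw [ξ.map_proj]
  rfl

/-- the action of unary members of `C` on the second copy of `ℕ` -/
def act (w : C.level 0) (a : ℕ) : ℕ := ξ.val w (fun _ => a)

theorem val_unary (w : C.level 0) (a : Fin 1 → ℕ) : ξ.val w a = ξ.act w (a 0) := by
  unfold act
  congr 1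
  ext i
  rw [fin_one_eq i]

theorem val_lcomp {n : ℕ} {w : ℕ → ℕ} (hw : un w ∈ C.level 0) (f : C.level n)
    (a : Fin (n + 1) → ℕ) :
    ξ.val ⟨fun x => w (f.1 x), Clone.lcomp_mem hw f⟩ a = ξ.act ⟨un w, hw⟩ (ξ.val f a) :=
  ξ.val_comp ⟨un w, hw⟩ (fun _ => f) a

theorem val_rcomp {n : ℕ} {w : ℕ → ℕ} (hw : un w ∈ C.level 0) (f : C.level n) :
    ∃ h : (fun x => f.1 (fun i => w (x i))) ∈ C.level n,
      ∀ a, ξ.val ⟨_, h⟩ a = ξ.val f (fun i => ξ.act ⟨un w, hw⟩ (a i)) := by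
  refine ⟨Clone.rcomp_mem f (fun i x => w (x i))
    (fun i => Clone.lcomp_mem hw (C.proj n i)), fun a => ?_⟩
  have := ξ.val_comp f (fun i => C.comp ⟨un w, hw⟩ (fun _ => C.proj n i)) a
  refine this.trans ?_
  congr 1
  ext i
  rw [ξ.val_comp, ξ.val_proj]
  rfl

theorem act_comp {w w' : ℕ → ℕ} (hw : un w ∈ C.level 0) (hw' : un w' ∈ C.level 0) (a : ℕ) :
    ξ.act ⟨un (fun x => w (w' x)), Clone.un_comp_mem hw hw'⟩ a =
      ξ.act ⟨un w, hw⟩ (ξ.act ⟨un w', hw'⟩ a) :=
  ξ.val_lcomp hw ⟨un w', hw'⟩ (fun _ => a)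

theorem act_id (hid : un id ∈ C.level 0) (a : ℕ) : ξ.act ⟨un id, hid⟩ a = a :=
  ξ.val_proj (0 : Fin 1) (fun _ => a)

theorem act_congr {w w' : ℕ → ℕ} (h : w = w') (hw : un w ∈ C.level 0) (hw' : un w' ∈ C.level 0)
    (a : ℕ) : ξ.act ⟨un w, hw⟩ a = ξ.act ⟨un w', hw'⟩ a := by
  subst h
  rfl

theorem eq_of_act_eq {w w' : C.level 0} (h : ∀ a, ξ.act w a = ξ.act w' a) : w = w' := by
  apply (ξ.bijective 0).1
  apply Subtype.ext
  funext a
  have := h (a 0)
  rw [← ξ.val_unary, ← ξ.val_unary] at this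
  exact this

section Perm

variable (hperm : ∀ σ : Perm ℕ, un σ ∈ C.level 0)

/-- the action of permutations -/
def pact (σ : Perm ℕ) (a : ℕ) : ℕ := ξ.act ⟨un σ, hperm σ⟩ a

theorem pact_mul (σ τ : Perm ℕ) (a : ℕ) :
    ξ.pact hperm (σ * τ) a = ξ.pact hperm σ (ξ.pact hperm τ a) :=
  ξ.act_comp (hperm σ) (hperm τ) a

theorem pact_one (a : ℕ) : ξ.pact hperm 1 a = a := ξ.act_id (hperm 1) a

theorem pact_inv (σ : Perm ℕ) (a : ℕ) : ξ.pact hperm σ⁻¹ (ξ.pact hperm σ a) = a := by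
  rw [← ξ.pact_mul]
  simpa using ξ.pact_one hperm a

/-- stabiliser -/
def pstab (a : ℕ) : Subgroup (Perm ℕ) where
  carrier := {σ | ξ.pact hperm σ a = a}
  mul_mem' := by
    intro σ τ hσ hτ
    show ξ.pact hperm (σ * τ) a = a
    rw [ξ.pact_mul, show ξ.pact hperm τ a = a from hτ]
    exact hσ
  one_mem' := ξ.pact_one hperm a
  inv_mem' := by
    intro σ hσ
    show ξ.pact hperm σ⁻¹ a = a
    conv_lhs => rw [← show ξ.pact hperm σ a = a from hσ]
    exact ξ.pact_inv hperm σ a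

theorem exists_psupp (a : ℕ) : ∃ F : Set ℕ, F.Finite ∧
    ∀ σ : Perm ℕ, (∀ x ∈ F, σ x = x) → ξ.pact hperm σ a = a := by
  obtain ⟨F, hF, hs⟩ := small_index (ξ.pstab hperm a) (fun σ => ξ.pact hperm σ a) (by
    intro σ τ h
    show ξ.pact hperm (σ⁻¹ * τ) a = a
    have h' : ξ.pact hperm σ a = ξ.pact hperm τ a := h
    rw [ξ.pact_mul, ← h', ξ.pact_inv])
  exact ⟨F, hF, fun σ hσ => hs σ hσ⟩

theorem pact_agree {a : ℕ} {F : Set ℕ}
    (hF : ∀ σ : Perm ℕ, (∀ x ∈ F, σ x = x) → ξ.pact hperm σ a = a) {σ τ : Perm ℕ}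
    (h : ∀ x ∈ F, σ x = τ x) : ξ.pact hperm σ a = ξ.pact hperm τ a := by
  have h1 := hF (τ⁻¹ * σ) (fun x hx => by
    rw [Perm.mul_apply, Perm.inv_eq_iff_eq, h x hx])
  have h2 : σ = τ * (τ⁻¹ * σ) := by group
  rw [h2, ξ.pact_mul, h1]

/-- An injection acts like any permutation agreeing with it on a finite support. -/
theorem act_emb (hC : IsClosed C.ops) (hD : IsClosed D.ops) (w : ℕ ↪ ℕ) (a : ℕ) (F : Set ℕ)
    (hFfin : F.Finite) (hF : ∀ σ : Perm ℕ, (∀ x ∈ F, σ x = x) → ξ.pact hperm σ a = a)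
    (σ : Perm ℕ) (hσ : ∀ x ∈ F, σ x = w x) :
    ξ.act ⟨un w, Clone.emb_mem hC hperm w⟩ a = ξ.pact hperm σ a := by
  classical
  choose G hG hGs using ξ.exists_psupp hperm
  have hex : ∀ S : Set ℕ, S.Finite → ∃ σ : Perm ℕ, ∀ x ∈ S, σ x = w x := fun S hS =>
    ext_perm_finite hS w.injective.injOn
  have hex' : ∀ a, ∃ σ : Perm ℕ, ∀ x ∈ G a, σ x = w x := fun a => hex _ (hG a)
  choose s hs using hex'
  -- the limit operation
  let wh : ℕ → ℕ := fun a => ξ.pact hperm (s a) a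
  have hwh : ∀ a (τ : Perm ℕ), (∀ x ∈ G a, τ x = w x) → wh a = ξ.pact hperm τ a := by
    intro a τ hτ
    exact ξ.pact_agree hperm (hGs a) (fun x hx => by rw [hs a x hx, hτ x hx])
  have hmem : un wh ∈ D.level 0 := by
    apply Clone.mem_level_of_approx hD
    intro S hS
    obtain ⟨τ, hτ⟩ := hex (⋃ x ∈ S, G (x 0)) (hS.biUnion fun x _ => hG (x 0))
    refine ⟨(ξ.map 0 ⟨un τ, hperm τ⟩).1, (ξ.map 0 ⟨un τ, hperm τ⟩).2, fun x hx => ?_⟩
    have h1 : wh (x 0) = ξ.pact hperm τ (x 0) :=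
      hwh (x 0) τ (fun y hy => hτ y (Set.mem_biUnion hx hy))
    show ξ.val ⟨un τ, hperm τ⟩ x = wh (x 0)
    rw [h1, ξ.val_unary]
    rfl
  obtain ⟨v, hv⟩ := (ξ.bijective 0).2 ⟨un wh, hmem⟩
  have hvact : ∀ a, ξ.act v a = wh a := by
    intro a
    unfold act val
    rw [hv]
    rfl
  -- `v` as a function
  obtain ⟨v, hvm⟩ := v
  obtain ⟨v', rfl⟩ : ∃ v' : ℕ → ℕ, v = un v' := by
    refine ⟨fun a => v (fun _ => a), ?_⟩
    funext x
    show v x = v (fun _ => x 0)
    congr 1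
    ext i
    rw [fin_one_eq i]
  -- commutation with transpositions
  have hcomm : ∀ x y z, v' (Equiv.swap x y z) = Equiv.swap (w x) (w y) (v' z) := by
    intro x y
    let t' : Perm ℕ := Equiv.swap x y
    let t : Perm ℕ := Equiv.swap (w x) (w y)
    have htw : ∀ z, w (t' z) = t (w z) := by
      intro z
      show w (Equiv.swap x y z) = Equiv.swap (w x) (w y) (w z)
      rw [Function.Injective.swap_apply w.injective]
    have h1 : ∀ a, wh (ξ.pact hperm t' a) = ξ.pact hperm t (wh a) := by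
      intro a
      obtain ⟨τ, hτ⟩ := hex (G (ξ.pact hperm t' a) ∪ (t' '' (G a) ∪ G a))
        ((hG _).union (((hG a).image _).union (hG a)))
      rw [hwh _ τ (fun y hy => hτ y (Or.inl hy)), hwh a τ (fun y hy => hτ y (Or.inr (Or.inr hy))),
        ← ξ.pact_mul, ← ξ.pact_mul]
      refine ξ.pact_agree hperm (hGs a) (fun z hz => ?_)
      rw [Perm.mul_apply, Perm.mul_apply, hτ z (Or.inr (Or.inr hz)),
        hτ (t' z) (Or.inr (Or.inl ⟨z, hz, rfl⟩)), htw]
    have h2 : (⟨un (fun z => v' (t' z)), Clone.un_comp_mem hvm (hperm t')⟩ : C.level 0) =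
        ⟨un (fun z => t (v' z)), Clone.un_comp_mem (hperm t) hvm⟩ := by
      apply ξ.eq_of_act_eq
      intro a
      rw [ξ.act_comp hvm (hperm t'), ξ.act_comp (hperm t) hvm, hvact, hvact]
      exact h1 a
    intro z
    have h3 := congrFun (congrArg Subtype.val h2) (fun _ => z)
    exact h3
  have hwhinj : Function.Injective wh := by
    intro a b hab
    obtain ⟨τ, hτ⟩ := hex (G a ∪ G b) ((hG a).union (hG b))
    rw [hwh a τ (fun y hy => hτ y (Or.inl hy)), hwh b τ (fun y hy => hτ y (Or.inr hy))] at hab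
    rw [← ξ.pact_inv hperm τ a, ← ξ.pact_inv hperm τ b, hab]
  have hvw : ∀ x, v' x = w x := by
    by_contra hcon
    push Not at hcon
    obtain ⟨x, hx⟩ := hcon
    -- then `v'` is constant
    have hrange : ∀ y, v' x ≠ w y := by
      intro y hy
      by_cases hxy : y = x
      · subst hxy; exact hx hy
      · -- choose a third point
        obtain ⟨z, hz⟩ := Infinite.exists_notMem_finset ({x, y} : Finset ℕ)
        simp only [Finset.mem_insert, Finset.mem_singleton, not_or] at hz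
        have h1 := hcomm y z x
        rw [Equiv.swap_apply_of_ne_of_ne (Ne.symm hxy) (Ne.symm hz.1), hy,
          Equiv.swap_apply_left] at h1
        exact hz.2 (w.injective h1).symm
    have hconst : ∀ y, v' y = v' x := by
      intro y
      have h1 := hcomm x y x
      rw [Equiv.swap_apply_left, Equiv.swap_apply_of_ne_of_ne (hrange x) (hrange y)] at h1
      exact h1
    -- constants are mapped to constants
    have h2 : C.comp (⟨un v', hvm⟩ : C.level 0) (fun _ => C.proj 1 0) =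
        C.comp (⟨un v', hvm⟩ : C.level 0) (fun _ => C.proj 1 1) := by
      apply Subtype.ext
      funext z
      show v' (z 0) = v' (z 1)
      rw [hconst, hconst (z 1)]
    have h3 : ξ.act ⟨un v', hvm⟩ 0 = ξ.act ⟨un v', hvm⟩ 1 := by
      have h4 := ξ.val_comp (⟨un v', hvm⟩ : C.level 0) (fun _ => C.proj 1 0) ![0, 1]
      have h5 := ξ.val_comp (⟨un v', hvm⟩ : C.level 0) (fun _ => C.proj 1 1) ![0, 1]
      rw [h2, h5] at h4
      simp only [ξ.val_proj] at h4
      exact h4.symm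
    rw [hvact, hvact] at h3
    exact absurd (hwhinj h3) (by norm_num)
  have hfin : ξ.act ⟨un w, Clone.emb_mem hC hperm w⟩ a = ξ.act ⟨un v', hvm⟩ a :=
    ξ.act_congr (funext fun x => (hvw x).symm) _ _ a
  rw [hfin, hvact]
  obtain ⟨τ, hτ⟩ := hex (G a ∪ F) ((hG a).union hFfin)
  rw [hwh a τ (fun y hy => hτ y (Or.inl hy))]
  exact ξ.pact_agree hperm hF (fun x hx => by rw [hτ x (Or.inr hx), hσ x hx])

end Perm

end CloneIso

end Pool.Agent.Lib.MP_0c3240_lc
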