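import Mathlib

/-!
Extension of partial injections to permutations of a countable set, and a generation lemma for
pointwise stabilisers.
-/

namespace Pool.Agent.Lib.MP_0c3240_lc

open Equiv

/-- Every infinite set contains two disjoint infinite subsets. -/
theorem exists_split {Ω : Type*} {A : Set Ω} (hA : A.Infinite) :
    ∃ A1 A2 : Set Ω, A1 ⊆ A ∧ A2 ⊆ A ∧ Disjoint A1 A2 ∧ A1.Infinite ∧ A2.Infinite := by
  let ν := hA.natEmbedding
  have hν : Function.Injective (fun n => (ν n : Ω)) :=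
    Subtype.val_injective.comp ν.injective
  refine ⟨Set.range (fun n => (ν (2*n) : Ω)), Set.range (fun n => (ν (2*n+1) : Ω)),
    ?_, ?_, ?_, ?_, ?_⟩
  · rintro _ ⟨n, rfl⟩; exact (ν (2*n)).2
  · rintro _ ⟨n, rfl⟩; exact (ν (2*n+1)).2
  · rw [Set.disjoint_left]
    rintro _ ⟨n, rfl⟩ ⟨m, hm⟩
    have := hν hm
    omega
  · exact Set.infinite_range_of_injective (fun a b h => by have := hν h; omega)
  · exact Set.infinite_range_of_injective (fun a b h => by have := hν h; omega)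

/-- A partial injection of a countable set whose domain and image have infinite complement
extends to a permutation. -/
theorem ext_perm {Ω : Type*} [Countable Ω] {P : Set Ω} {f : Ω → Ω} (hf : Set.InjOn f P)
    (h1 : Pᶜ.Infinite) (h2 : (f '' P)ᶜ.Infinite) :
    ∃ τ : Perm Ω, ∀ x ∈ P, τ x = f x := by
  classical
  have e1 : {x // x ∈ P} ≃ {x // x ∈ f '' P} := Equiv.Set.imageOfInjOn f P hf
  have hi1 : Infinite {x // ¬ x ∈ P} := h1.to_subtype
  have hi2 : Infinite {x // ¬ x ∈ f '' P} := h2.to_subtype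
  obtain ⟨e2⟩ : Nonempty ({x // ¬ x ∈ P} ≃ {x // ¬ x ∈ f '' P}) := nonempty_equiv_of_countable
  let e1' : {x // x ∈ P} ≃ {x // x ∈ f '' P} := Equiv.Set.imageOfInjOn f P hf
  refine ⟨Equiv.subtypeCongr e1' e2, fun x hx => ?_⟩
  have : Equiv.subtypeCongr e1' e2 x = e1' ⟨x, hx⟩ := by
    simp [Equiv.subtypeCongr, Equiv.sumCompl_symm_apply_of_pos hx]
  rw [this]
  rfl

/-- finite version -/
theorem ext_perm_finite {Ω : Type*} [Countable Ω] [Infinite Ω] {P : Set Ω} {f : Ω → Ω}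
    (hP : P.Finite) (hf : Set.InjOn f P) :
    ∃ τ : Perm Ω, ∀ x ∈ P, τ x = f x :=
  ext_perm hf hP.infinite_compl (hP.image f).infinite_compl

/-- matching finitely many values -/
theorem exists_perm_match {Ω S : Type*} [Countable Ω] [Infinite Ω] {T : Set S} (hT : T.Finite)
    (p q : S → Ω) (h : ∀ s ∈ T, ∀ s' ∈ T, p s = p s' ↔ q s = q s') :
    ∃ ρ : Perm Ω, ∀ s ∈ T, ρ (p s) = q s := by
  classical
  have hsec : ∀ x ∈ p '' T, ∃ s ∈ T, p s = x := fun x hx => hx
  let g : Ω → Ω := fun x => if hx : ∃ s ∈ T, p s = x then q hx.choose else x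
  have hg : ∀ s ∈ T, g (p s) = q s := by
    intro s hs
    have hx : ∃ s' ∈ T, p s' = p s := ⟨s, hs, rfl⟩
    have : g (p s) = q hx.choose := dif_pos hx
    rw [this]
    exact (h _ hx.choose_spec.1 _ hs).1 hx.choose_spec.2
  have hinj : Set.InjOn g (p '' T) := by
    rintro _ ⟨s, hs, rfl⟩ _ ⟨s', hs', rfl⟩ heq
    rw [hg s hs, hg s' hs'] at heq
    exact (h s hs s' hs').2 heq
  obtain ⟨ρ, hρ⟩ := ext_perm_finite (hT.image p) hinj
  exact ⟨ρ, fun s hs => by rw [hρ _ ⟨s, hs, rfl⟩, hg s hs]⟩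

/-- The pointwise stabiliser of `P` is contained in `K`. -/
def Sup {Ω : Type*} (K : Subgroup (Perm Ω)) (P : Set Ω) : Prop :=
  ∀ σ : Perm Ω, (∀ x ∈ P, σ x = x) → σ ∈ K

theorem exists_inj_into {Ω : Type*} [Countable Ω] {A : Set Ω} (hA : A.Infinite) :
    ∃ j : Ω → Ω, Function.Injective j ∧ ∀ x, j x ∈ A := by
  obtain ⟨e, he⟩ := exists_injective_nat Ω
  let ν := hA.natEmbedding
  exact ⟨fun x => (ν (e x) : Ω),
    Subtype.val_injective.comp (ν.injective.comp he), fun x => (ν (e x)).2⟩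

theorem sup_inter_aux {Ω : Type*} [Countable Ω] {K : Subgroup (Perm Ω)} {P Q : Set Ω}
    (hP : Sup K P) (hQ : Sup K Q) (g : Perm Ω) (hg : ∀ x ∈ P ∩ Q, g x = x)
    {W1 : Set Ω} (hW1 : W1.Infinite) (hW1' : W1 ⊆ (P ∪ Q)ᶜ) (hgW : ∀ x ∈ W1, g x = x) :
    g ∈ K := by
  classical
  obtain ⟨A1, A2, hA1, hA2, hdisj, hi1, hi2⟩ := exists_split hW1
  obtain ⟨j, hj, hjA⟩ := exists_inj_into hi1
  let f : Ω → Ω := fun x => if x ∈ Q then x else j x
  have hjn : ∀ x, j x ∉ P ∪ Q := fun x => hW1' (hA1 (hjA x))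
  have hinj : Set.InjOn f (P ∪ Q) := by
    intro x _ y _ hxy
    by_cases hx : x ∈ Q <;> by_cases hy : y ∈ Q
    · simpa [f, hx, hy] using hxy
    · simp only [f, hx, hy, if_true, if_false] at hxy
      exact absurd (Or.inr (hxy ▸ hx)) (hjn y)
    · simp only [f, hx, hy, if_true, if_false] at hxy
      exact absurd (Or.inr (hxy.symm ▸ hy)) (hjn x)
    · simp only [f, hx, hy, if_false] at hxy
      exact hj hxy
  have h1 : (P ∪ Q)ᶜ.Infinite := hW1.mono hW1'
  have h2 : (f '' (P ∪ Q))ᶜ.Infinite := by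
    refine hi2.mono ?_
    rintro y hy ⟨x, hx, rfl⟩
    by_cases hxQ : x ∈ Q
    · simp only [f, hxQ, if_true] at hy
      exact hW1' (hA2 hy) (Or.inr hxQ)
    · simp only [f, hxQ, if_false] at hy
      exact Set.disjoint_left.1 hdisj (hjA x) hy
  obtain ⟨t, ht⟩ := ext_perm hinj h1 h2
  have htQ : ∀ x ∈ Q, t x = x := fun x hx => by
    rw [ht x (Or.inr hx)]; simp [f, hx]
  have htK : t ∈ K := hQ t htQ
  have hc : t⁻¹ * g * t ∈ K := by
    refine hP _ fun x hx => ?_
    by_cases hxQ : x ∈ Q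
    · simp only [Perm.mul_apply, htQ x hxQ, hg x ⟨hx, hxQ⟩]
      rw [Perm.inv_eq_iff_eq, htQ x hxQ]
    · have htx : t x = j x := by rw [ht x (Or.inl hx)]; simp [f, hxQ]
      simp only [Perm.mul_apply]
      rw [Perm.inv_eq_iff_eq, htx, hgW _ (hA1 (hjA x))]
  have : g = t * (t⁻¹ * g * t) * t⁻¹ := by group
  rw [this]
  exact K.mul_mem (K.mul_mem htK hc) (K.inv_mem htK)

/-- If the pointwise stabilisers of `P` and of `Q` are in `K` and `P ∪ Q` has infinite complement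
then the pointwise stabiliser of `P ∩ Q` is in `K`. -/
theorem sup_inter {Ω : Type*} [Countable Ω] {K : Subgroup (Perm Ω)} {P Q : Set Ω}
    (hP : Sup K P) (hQ : Sup K Q) (hW : (P ∪ Q)ᶜ.Infinite) : Sup K (P ∩ Q) := by
  classical
  intro g hg
  obtain ⟨B, A3, hB, hA3, hdB, hBi, hA3i⟩ := exists_split hW
  obtain ⟨A1, A2, hA1, hA2, hd12, hA1i, hA2i⟩ := exists_split hBi
  -- one of the two images leaves infinitely many points of `A3`
  have key : (A3 \ (g '' A1)).Infinite ∨ (A3 \ (g '' A2)).Infinite := by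
    by_contra hcon
    push Not at hcon
    have hf := hcon.1.union hcon.2
    refine hA3i (hf.subset ?_)
    intro x hx
    by_cases h : x ∈ g '' A1
    · right
      refine ⟨hx, ?_⟩
      rintro ⟨y, hy, rfl⟩
      obtain ⟨z, hz, hzy⟩ := h
      have := g.injective hzy
      subst this
      exact Set.disjoint_left.1 hd12 hz hy
    · left; exact ⟨hx, h⟩
  have main : ∀ A : Set Ω, A ⊆ B → A.Infinite → (A3 \ (g '' A)).Infinite → g ∈ K := by
    intro A hAB hAi hAr
    obtain ⟨W1, R, hW1, hR, hdW, hW1i, hRi⟩ := exists_split hAr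
    let f : Ω → Ω := fun x => if x ∈ A then g x else x
    have hAd : ∀ x ∈ A, x ∉ A3 := fun x hx h3 => Set.disjoint_left.1 hdB (hAB hx) h3
    have hinj : Set.InjOn f ((P ∩ Q) ∪ W1 ∪ A) := by
      have aux : ∀ x ∈ A, ∀ y ∈ (P ∩ Q) ∪ W1 ∪ A, y ∉ A → g x ≠ y := by
        intro x hx y hy hyA hxy
        rcases hy with (hy | hy) | hy
        · have : g x = g y := by rw [hxy, hg y hy]
          exact hyA (g.injective this ▸ hx)
        · exact (hW1 hy).2 ⟨x, hx, hxy⟩
        · exact hyA hy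
      intro x hx y hy hxy
      by_cases hxA : x ∈ A <;> by_cases hyA : y ∈ A
      · simp only [f, hxA, hyA, if_true] at hxy
        exact g.injective hxy
      · simp only [f, hxA, hyA, if_true, if_false] at hxy
        exact absurd hxy (aux x hxA y hy hyA)
      · simp only [f, hxA, hyA, if_true, if_false] at hxy
        exact absurd hxy.symm (aux y hyA x hx hxA)
      · simpa [f, hxA, hyA] using hxy
    have hRn : ∀ x ∈ R, x ∉ (P ∩ Q) ∪ W1 ∪ A := by
      rintro x hx ((h | h) | h)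
      · exact hA3 (hR hx).1 (Or.inl h.1)
      · exact Set.disjoint_left.1 hdW h hx
      · exact hAd x h (hR hx).1
    have h1 : ((P ∩ Q) ∪ W1 ∪ A)ᶜ.Infinite := hRi.mono hRn
    have h2 : (f '' ((P ∩ Q) ∪ W1 ∪ A))ᶜ.Infinite := by
      refine hRi.mono ?_
      rintro y hy ⟨x, hx, rfl⟩
      by_cases hxA : x ∈ A
      · simp only [f, hxA, if_true] at hy
        exact (hR hy).2 ⟨x, hxA, rfl⟩
      · simp only [f, hxA, if_false] at hy
        exact hRn x hy hx
    obtain ⟨g2, hg2⟩ := ext_perm hinj h1 h2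
    have hPA : ∀ x ∈ P ∩ Q, x ∉ A := fun x hx hxA => hB (hAB hxA) (Or.inl hx.1)
    have hWA : ∀ x ∈ W1, x ∉ A := fun x hx hxA => hAd x hxA (hW1 hx).1
    have e1 : ∀ x ∈ P ∩ Q, g2 x = x := fun x hx => by
      rw [hg2 x (Or.inl (Or.inl hx))]; simp [f, hPA x hx]
    have e2 : ∀ x ∈ W1, g2 x = x := fun x hx => by
      rw [hg2 x (Or.inl (Or.inr hx))]; simp [f, hWA x hx]
    have e3 : ∀ x ∈ A, g2 x = g x := fun x hx => by
      rw [hg2 x (Or.inr hx)]; simp [f, hx]
    have k1 : g2 ∈ K := sup_inter_aux hP hQ g2 e1 hW1i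
      (fun x hx => hA3 (hW1 hx).1) e2
    have k2 : g2⁻¹ * g ∈ K := by
      refine sup_inter_aux hP hQ _ (fun x hx => ?_) hAi (fun x hx => hB (hAB hx)) (fun x hx => ?_)
      · rw [Perm.mul_apply, hg x hx, Perm.inv_eq_iff_eq, e1 x hx]
      · rw [Perm.mul_apply, Perm.inv_eq_iff_eq, e3 x hx]
    have : g = g2 * (g2⁻¹ * g) := by group
    rw [this]
    exact K.mul_mem k1 k2
  rcases key with h | h
  · exact main A1 hA1 hA1i h
  · exact main A2 hA2 hA2i h

end Pool.Agent.Lib.MP_0c3240_lc
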