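import Pool.Agent.Lib.MP_0c3240_lc.PermExt

/-!
Actions of the monoid of all injections of `ℕ` in which every point has a finite support;
least supports.
-/

namespace Pool.Agent.Lib.MP_0c3240_lc

open Equiv

/-- An action of the monoid of injections `ℕ ↪ ℕ` such that each point is determined by finitely
many values of the injection. -/
structure EmbAct (N : Type*) where
  /-- the action -/
  A : (ℕ ↪ ℕ) → N → N
  one : ∀ a, A (Function.Embedding.refl ℕ) a = a
  mul : ∀ u v a, A (u.trans v) a = A v (A u a)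
  fin : ∀ a, ∃ F : Finset ℕ, ∀ u v : ℕ ↪ ℕ, (∀ x ∈ F, u x = v x) → A u a = A v a

namespace EmbAct

variable {N : Type*} (E : EmbAct N)

/-- `F` supports `a`. -/
def Supports (F : Finset ℕ) (a : N) : Prop :=
  ∀ u v : ℕ ↪ ℕ, (∀ x ∈ F, u x = v x) → E.A u a = E.A v a

theorem perm_mul (σ τ : Perm ℕ) (a : N) :
    E.A (σ * τ).toEmbedding a = E.A σ.toEmbedding (E.A τ.toEmbedding a) := by
  rw [← E.mul]
  rfl

theorem perm_one (a : N) : E.A (1 : Perm ℕ).toEmbedding a = a := E.one a

theorem perm_inv_cancel (σ : Perm ℕ) (a : N) :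
    E.A (σ⁻¹ : Perm ℕ).toEmbedding (E.A σ.toEmbedding a) = a := by
  rw [← E.perm_mul]
  simpa using E.perm_one a

theorem exists_perm_agree (u : ℕ ↪ ℕ) (F : Finset ℕ) : ∃ σ : Perm ℕ, ∀ x ∈ F, σ x = u x := by
  obtain ⟨σ, hσ⟩ := ext_perm_finite (P := (F : Set ℕ)) (f := u) F.finite_toSet
    u.injective.injOn
  exact ⟨σ, fun x hx => hσ x (by exact_mod_cast hx)⟩

/-- the stabiliser of a point in the symmetric group -/
def stab (a : N) : Subgroup (Perm ℕ) where
  carrier := {σ | E.A σ.toEmbedding a = a}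
  mul_mem' := by
    intro σ τ hσ hτ
    show E.A (σ * τ).toEmbedding a = a
    rw [E.perm_mul, show E.A τ.toEmbedding a = a from hτ]
    exact hσ
  one_mem' := E.perm_one a
  inv_mem' := by
    intro σ hσ
    show E.A (σ⁻¹ : Perm ℕ).toEmbedding a = a
    conv_lhs => rw [← show E.A σ.toEmbedding a = a from hσ]
    exact E.perm_inv_cancel σ a

theorem mem_stab {a : N} {σ : Perm ℕ} : σ ∈ E.stab a ↔ E.A σ.toEmbedding a = a := Iff.rfl

theorem supports_iff (F : Finset ℕ) (a : N) : E.Supports F a ↔ Sup (E.stab a) (F : Set ℕ) := by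
  constructor
  · intro h σ hσ
    rw [mem_stab]
    have := h σ.toEmbedding (1 : Perm ℕ).toEmbedding (fun x hx => hσ x (by exact_mod_cast hx))
    rw [this, E.perm_one]
  · intro h u v huv
    obtain ⟨F0, hF0⟩ := E.fin a
    obtain ⟨σ, hσ⟩ := exists_perm_agree u (F ∪ F0)
    obtain ⟨τ, hτ⟩ := exists_perm_agree v (F ∪ F0)
    have h1 : E.A u a = E.A σ.toEmbedding a :=
      hF0 _ _ fun x hx => (hσ x (Finset.mem_union_right _ hx)).symm
    have h2 : E.A v a = E.A τ.toEmbedding a :=
      hF0 _ _ fun x hx => (hτ x (Finset.mem_union_right _ hx)).symm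
    have h3 : τ⁻¹ * σ ∈ E.stab a := by
      refine h _ fun x hx => ?_
      have hx' : x ∈ F := by exact_mod_cast hx
      rw [Perm.mul_apply, Perm.inv_eq_iff_eq, hσ x (Finset.mem_union_left _ hx'),
        hτ x (Finset.mem_union_left _ hx'), huv x hx']
    rw [mem_stab, E.perm_mul] at h3
    rw [h1, h2]
    have h4 : E.A τ.toEmbedding (E.A (τ⁻¹ : Perm ℕ).toEmbedding (E.A σ.toEmbedding a)) =
      E.A τ.toEmbedding a := by rw [h3]
    rw [← E.perm_mul] at h4
    rw [← h4]
    simp only [mul_inv_cancel]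
    exact (E.perm_one _).symm

theorem supports_inter {F F' : Finset ℕ} {a : N} (h : E.Supports F a) (h' : E.Supports F' a) :
    E.Supports (F ∩ F') a := by
  rw [supports_iff] at *
  rw [Finset.coe_inter]
  refine sup_inter h h' ?_
  exact (F.finite_toSet.union F'.finite_toSet).infinite_compl

theorem exists_least (a : N) :
    ∃ F : Finset ℕ, E.Supports F a ∧ ∀ F', E.Supports F' a → F ⊆ F' := by
  classical
  obtain ⟨F0, hF0⟩ := E.fin a
  obtain ⟨F, hF, hmin⟩ := WellFounded.has_min (measure (Finset.card (α := ℕ))).wf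
    {F | E.Supports F a} ⟨F0, hF0⟩
  refine ⟨F, hF, fun F' hF' => ?_⟩
  have h1 : E.Supports (F ∩ F') a := E.supports_inter hF hF'
  have h2 := hmin _ h1
  have h3 : F.card ≤ (F ∩ F').card := not_lt.1 h2
  have h4 : F ∩ F' = F := Finset.eq_of_subset_of_card_le Finset.inter_subset_left h3
  rw [← h4]
  exact Finset.inter_subset_right

/-- the least support -/
noncomputable def supp (a : N) : Finset ℕ := (E.exists_least a).choose

theorem supp_supports (a : N) : E.Supports (E.supp a) a := (E.exists_least a).choose_spec.1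

theorem supp_subset {a : N} {F : Finset ℕ} (h : E.Supports F a) : E.supp a ⊆ F :=
  (E.exists_least a).choose_spec.2 F h

theorem supports_map {F : Finset ℕ} {a : N} (h : E.Supports F a) (u : ℕ ↪ ℕ) :
    E.Supports (F.map u) (E.A u a) := by
  intro v w hvw
  rw [← E.mul, ← E.mul]
  refine h _ _ fun x hx => ?_
  exact hvw _ (Finset.mem_map_of_mem u hx)

theorem supp_map (u : ℕ ↪ ℕ) (a : N) : E.supp (E.A u a) = (E.supp a).map u := by
  apply Finset.Subset.antisymm
  · exact E.supp_subset (E.supports_map (E.supp_supports a) u)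
  · obtain ⟨σ, hσ⟩ := exists_perm_agree u (E.supp a)
    have h1 : E.A u a = E.A σ.toEmbedding a :=
      E.supp_supports a _ _ fun x hx => (hσ x hx).symm
    have h2 : E.Supports ((E.supp (E.A u a)).map (σ⁻¹ : Perm ℕ).toEmbedding) a := by
      have := E.supports_map (E.supp_supports (E.A u a)) (σ⁻¹ : Perm ℕ).toEmbedding
      conv at this => arg 3; rw [h1, E.perm_inv_cancel]
      exact this
    have h3 := E.supp_subset h2
    intro y hy
    obtain ⟨x, hx, rfl⟩ := Finset.mem_map.1 hy
    obtain ⟨z, hz, hzx⟩ := Finset.mem_map.1 (h3 hx)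
    have h4 : (σ⁻¹ : Perm ℕ) z = x := hzx
    have h5 : z = σ x := by rw [← h4]; simp
    rw [← hσ x hx, ← h5]
    exact hz

theorem injective (u : ℕ ↪ ℕ) : Function.Injective (E.A u) := by
  intro a b hab
  obtain ⟨σ, hσ⟩ := exists_perm_agree u (E.supp a ∪ E.supp b)
  have h1 : E.A u a = E.A σ.toEmbedding a :=
    E.supp_supports a _ _ fun x hx => (hσ x (Finset.mem_union_left _ hx)).symm
  have h2 : E.A u b = E.A σ.toEmbedding b :=
    E.supp_supports b _ _ fun x hx => (hσ x (Finset.mem_union_right _ hx)).symm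
  rw [h1, h2] at hab
  rw [← E.perm_inv_cancel σ a, ← E.perm_inv_cancel σ b, hab]

end EmbAct

end Pool.Agent.Lib.MP_0c3240_lc
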